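import Mathlib

/-!
# Project MEI (M2), w-term: boxes, grids and formulas for tables

`bw4`, `bw8` = weights of the vertices of a box; `MF` = multi-affine functions of three variables
with natural coefficients; `find_cell` = the interval of a grid which contains a number;
`grid_le` = from the exact row weights of the tables to a formula.
-/

set_option autoImplicit false

namespace Helper29.MEI

open Finset

/-- the unit -/
def V6 : ℕ := 1000000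

theorem V6_pos : (0 : ℝ) < (V6 : ℝ) := by
  unfold V6
  norm_num

/-! ### Position in an interval -/

/-- position of `x` in `[a, b]`, `0` for a degenerate interval -/
noncomputable def pst (a b x : ℝ) : ℝ := if a = b then 0 else (x - a) / (b - a)

section
variable {a b x : ℝ} (h0 : a ≤ x) (h1 : x ≤ b)
include h0 h1

theorem pst_nonneg : 0 ≤ pst a b x := by
  unfold pst
  split_ifs
  · exact le_rfl
  · exact div_nonneg (by linarith) (by linarith)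

theorem pst_le : pst a b x ≤ 1 := by
  unfold pst
  split_ifs with h
  · exact zero_le_one
  · have : a < b := lt_of_le_of_ne (h0.trans h1) h
    rw [div_le_one (by linarith)]
    linarith

theorem pst_eq : (1 - pst a b x) * a + pst a b x * b = x := by
  unfold pst
  split_ifs with h
  · subst h
    linarith
  · have h2 : b - a ≠ 0 := fun e => h (by linarith)
    have : (x - a) / (b - a) * (b - a) = x - a := div_mul_cancel₀ _ h2
    linarith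

end

/-! ### Weights of the vertices of a box -/

/-- the four vertices, `r = a + 2 b` -/
noncomputable def bw4 (p q : ℝ) : ℕ → ℝ
  | 0 => (1 - p) * (1 - q)
  | 1 => p * (1 - q)
  | 2 => (1 - p) * q
  | 3 => p * q
  | _ => 0

/-- the eight vertices, `r = a + 2 b + 4 c` -/
noncomputable def bw8 (p q u : ℝ) : ℕ → ℝ
  | 0 => (1 - p) * (1 - q) * (1 - u)
  | 1 => p * (1 - q) * (1 - u)
  | 2 => (1 - p) * q * (1 - u)
  | 3 => p * q * (1 - u)
  | 4 => (1 - p) * (1 - q) * u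
  | 5 => p * (1 - q) * u
  | 6 => (1 - p) * q * u
  | 7 => p * q * u
  | _ => 0

/-- first coordinate of a vertex -/
def vx0 (a b : ℕ) (r : ℕ) : ℕ := if r % 2 = 0 then a else b

/-- second coordinate of a vertex -/
def vx1 (a b : ℕ) (r : ℕ) : ℕ := if r / 2 % 2 = 0 then a else b

/-- third coordinate of a vertex -/
def vx2 (a b : ℕ) (r : ℕ) : ℕ := if r / 4 % 2 = 0 then a else b

section
variable {p q u : ℝ} (p0 : 0 ≤ p) (p1 : p ≤ 1) (q0 : 0 ≤ q) (q1 : q ≤ 1)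
include p0 p1 q0 q1

theorem bw4_nonneg : ∀ r, 0 ≤ bw4 p q r
  | 0 => mul_nonneg (sub_nonneg.2 p1) (sub_nonneg.2 q1)
  | 1 => mul_nonneg p0 (sub_nonneg.2 q1)
  | 2 => mul_nonneg (sub_nonneg.2 p1) q0
  | 3 => mul_nonneg p0 q0
  | _ + 4 => le_rfl

theorem bw8_nonneg (u0 : 0 ≤ u) (u1 : u ≤ 1) : ∀ r, 0 ≤ bw8 p q u r
  | 0 => mul_nonneg (mul_nonneg (sub_nonneg.2 p1) (sub_nonneg.2 q1)) (sub_nonneg.2 u1)
  | 1 => mul_nonneg (mul_nonneg p0 (sub_nonneg.2 q1)) (sub_nonneg.2 u1)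
  | 2 => mul_nonneg (mul_nonneg (sub_nonneg.2 p1) q0) (sub_nonneg.2 u1)
  | 3 => mul_nonneg (mul_nonneg p0 q0) (sub_nonneg.2 u1)
  | 4 => mul_nonneg (mul_nonneg (sub_nonneg.2 p1) (sub_nonneg.2 q1)) u0
  | 5 => mul_nonneg (mul_nonneg p0 (sub_nonneg.2 q1)) u0
  | 6 => mul_nonneg (mul_nonneg (sub_nonneg.2 p1) q0) u0
  | 7 => mul_nonneg (mul_nonneg p0 q0) u0
  | _ + 8 => le_rfl

end

theorem bw4_sum (p q : ℝ) (f : ℕ → ℝ) : ∑ r ∈ range 4, bw4 p q r * f r =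
    (1 - p) * (1 - q) * f 0 + p * (1 - q) * f 1 + (1 - p) * q * f 2 + p * q * f 3 := by
  simp only [sum_range_succ, sum_range_zero, zero_add, bw4]

theorem bw8_sum (p q u : ℝ) (f : ℕ → ℝ) : ∑ r ∈ range 8, bw8 p q u r * f r =
    (1 - p) * (1 - q) * (1 - u) * f 0 + p * (1 - q) * (1 - u) * f 1
      + (1 - p) * q * (1 - u) * f 2 + p * q * (1 - u) * f 3
      + (1 - p) * (1 - q) * u * f 4 + p * (1 - q) * u * f 5
      + (1 - p) * q * u * f 6 + p * q * u * f 7 := by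
  simp only [sum_range_succ, sum_range_zero, zero_add, bw8]

theorem bw4_one (p q : ℝ) : ∑ r ∈ range 4, bw4 p q r = 1 := by
  have h := bw4_sum p q fun _ => 1
  simp only [mul_one] at h
  rw [h]
  ring

theorem bw8_one (p q u : ℝ) : ∑ r ∈ range 8, bw8 p q u r = 1 := by
  have h := bw8_sum p q u fun _ => 1
  simp only [mul_one] at h
  rw [h]
  ring

/-- a constant -/
theorem bw8_const (p q u c : ℝ) : ∑ r ∈ range 8, bw8 p q u r * c = c := by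
  rw [← sum_mul, bw8_one, one_mul]

theorem bw4_const (p q c : ℝ) : ∑ r ∈ range 4, bw4 p q r * c = c := by
  rw [← sum_mul, bw4_one, one_mul]

/-! ### Multi-affine functions -/

/-- a multi-affine function of `(s, S, n)`, coefficients in units `10⁻⁶` -/
structure MF where
  o : ℕ
  s : ℕ
  S : ℕ
  n : ℕ
  sS : ℕ
  sn : ℕ
  Sn : ℕ
  sSn : ℕ

/-- its value -/
noncomputable def MF.ev (F : MF) (s S n : ℝ) : ℝ :=
  (F.o : ℝ) / V6 + (F.s : ℝ) / V6 * s + (F.S : ℝ) / V6 * S + (F.n : ℝ) / V6 * n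
    + (F.sS : ℝ) / V6 * (s * S) + (F.sn : ℝ) / V6 * (s * n) + (F.Sn : ℝ) / V6 * (S * n)
    + (F.sSn : ℝ) / V6 * (s * S * n)

/-- its value in units `10⁻²⁴` -/
def MF.nat (F : MF) (s S n : ℕ) : ℕ :=
  V6 * V6 * V6 * F.o + V6 * V6 * (F.s * s + F.S * S + F.n * n)
    + V6 * (F.sS * (s * S) + F.sn * (s * n) + F.Sn * (S * n)) + F.sSn * (s * S * n)

theorem MF.nat_eq (F : MF) (s S n : ℕ) :
    ((F.nat s S n : ℕ) : ℝ) / (V6 : ℝ) ^ 4 =
      F.ev ((s : ℝ) / V6) ((S : ℝ) / V6) ((n : ℝ) / V6) := by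
  have h := V6_pos
  unfold MF.nat MF.ev
  push_cast
  field_simp
  ring

theorem MF.ev_box (F : MF) (x0 x1 y0 y1 z0 z1 p q u : ℝ) :
    F.ev ((1 - p) * x0 + p * x1) ((1 - q) * y0 + q * y1) ((1 - u) * z0 + u * z1) =
      (1 - p) * (1 - q) * (1 - u) * F.ev x0 y0 z0 + p * (1 - q) * (1 - u) * F.ev x1 y0 z0
      + (1 - p) * q * (1 - u) * F.ev x0 y1 z0 + p * q * (1 - u) * F.ev x1 y1 z0
      + (1 - p) * (1 - q) * u * F.ev x0 y0 z1 + p * (1 - q) * u * F.ev x1 y0 z1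
      + (1 - p) * q * u * F.ev x0 y1 z1 + p * q * u * F.ev x1 y1 z1 := by
  unfold MF.ev
  ring

/-! ### Grids -/

/-- breakpoint -/
def gp (g : List ℕ) (i : ℕ) : ℕ := g.getD i 0

/-- **the interval of a grid which contains a number** -/
theorem find_cell {g : List ℕ} {v : ℝ} (h0 : (gp g 0 : ℝ) / V6 ≤ v) :
    ∀ n : ℕ, v ≤ (gp g (n + 1) : ℝ) / V6 →
      ∃ i, i < n + 1 ∧ (gp g i : ℝ) / V6 ≤ v ∧ v ≤ (gp g (i + 1) : ℝ) / V6
  | 0, h1 => ⟨0, by omega, h0, h1⟩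
  | n + 1, h1 => by
    rcases le_total v ((gp g (n + 1) : ℝ) / V6) with h | h
    · obtain ⟨i, i0, i1, i2⟩ := find_cell h0 n h
      exact ⟨i, by omega, i1, i2⟩
    · exact ⟨n + 1, by omega, h, h1⟩

/-! ### The leak of a cell -/

/-- the leak `n` at the lower end of a cell is possible for the minimum `m` of the violations at
the upper end -/
def nOK (n m : ℕ) : Bool := Nat.ble (2 * (n * n) * V6) (m * ((2 * V6 + n) * (2 * V6 + n)))

theorem nOK_of {n0 m1 : ℕ} {n m : ℝ} (hn : (n0 : ℝ) / V6 ≤ n) (hm : m ≤ (m1 : ℝ) / V6)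
    (h : n ^ 2 ≤ 2 * m * (1 + n / 2) ^ 2) : nOK n0 m1 = true := by
  have hV := V6_pos
  obtain ⟨a, ha⟩ : ∃ a, a = (n0 : ℝ) / V6 := ⟨_, rfl⟩
  obtain ⟨b, hb⟩ : ∃ b, b = (m1 : ℝ) / V6 := ⟨_, rfl⟩
  have ha0 : 0 ≤ a := by rw [ha]; positivity
  rw [← ha] at hn
  rw [← hb] at hm
  have hn0 : 0 ≤ n := ha0.trans hn
  have k1 : 2 * a ^ 2 ≤ b * (2 + a) ^ 2 := by
    have e1 : 2 * n ^ 2 ≤ m * (2 + n) ^ 2 := by nlinarith
    have e2 : a * (2 + n) ≤ n * (2 + a) := by nlinarith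
    have e3 : a ^ 2 * (2 + n) ^ 2 ≤ n ^ 2 * (2 + a) ^ 2 := by
      rw [← mul_pow, ← mul_pow]
      exact pow_le_pow_left₀ (by positivity) e2 2
    have e4 : 2 * a ^ 2 * (2 + n) ^ 2 ≤ m * (2 + a) ^ 2 * (2 + n) ^ 2 := by
      have := mul_le_mul_of_nonneg_right e1 (sq_nonneg (2 + a))
      nlinarith
    have e5 : 2 * a ^ 2 ≤ m * (2 + a) ^ 2 :=
      le_of_mul_le_mul_right e4 (by positivity)
    exact e5.trans (mul_le_mul_of_nonneg_right hm (sq_nonneg _))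
  unfold nOK
  rw [Nat.ble_eq]
  have e0 : (n0 : ℝ) = a * V6 := by rw [ha]; field_simp
  have e1 : (m1 : ℝ) = b * V6 := by rw [hb]; field_simp
  have k2 : ((2 * (n0 * n0) * V6 : ℕ) : ℝ) ≤
      ((m1 * ((2 * V6 + n0) * (2 * V6 + n0)) : ℕ) : ℝ) := by
    push_cast
    rw [e0, e1]
    have := mul_le_mul_of_nonneg_right k1 (show 0 ≤ (V6 : ℝ) ^ 3 by positivity)
    nlinarith
  exact_mod_cast k2

/-! ### From the row weights to a formula -/

/-- check of one cell: row weights in units `U⁻⁴ / 4` -/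
def cellck (F : MF) (s0 s1 S0 S1 n0 n1 : ℕ) (W : ℕ → ℕ) : Bool :=
  (List.range 8).all fun r =>
    Nat.ble (W r) (4 * F.nat (vx0 s0 s1 r) (vx1 S0 S1 r) (vx2 n0 n1 r))

/-- **one cell** -/
theorem cell_le {F : MF} {s0 s1 S0 S1 n0 n1 : ℕ} {W : ℕ → ℕ}
    (h : cellck F s0 s1 S0 S1 n0 n1 W = true) {s S n : ℝ}
    (hs0 : (s0 : ℝ) / V6 ≤ s) (hs1 : s ≤ (s1 : ℝ) / V6)
    (hS0 : (S0 : ℝ) / V6 ≤ S) (hS1 : S ≤ (S1 : ℝ) / V6)
    (hn0 : (n0 : ℝ) / V6 ≤ n) (hn1 : n ≤ (n1 : ℝ) / V6) :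
    ∑ r ∈ range 8, bw8 (pst ((s0 : ℝ) / V6) ((s1 : ℝ) / V6) s)
      (pst ((S0 : ℝ) / V6) ((S1 : ℝ) / V6) S) (pst ((n0 : ℝ) / V6) ((n1 : ℝ) / V6) n) r *
        ((W r : ℝ) / (4 * (V6 : ℝ) ^ 4)) ≤ F.ev s S n := by
  have hV := V6_pos
  have k : ∀ r, r < 8 → (W r : ℝ) / (4 * (V6 : ℝ) ^ 4) ≤
      F.ev ((vx0 s0 s1 r : ℝ) / V6) ((vx1 S0 S1 r : ℝ) / V6) ((vx2 n0 n1 r : ℝ) / V6) := by
    intro r hr
    have h1 := List.all_eq_true.1 h r (List.mem_range.2 hr)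
    rw [Nat.ble_eq] at h1
    rw [← MF.nat_eq, div_le_div_iff₀ (by positivity) (by positivity)]
    have h2 : (W r : ℝ) ≤ 4 * ((F.nat (vx0 s0 s1 r) (vx1 S0 S1 r) (vx2 n0 n1 r) : ℕ) : ℝ) := by
      exact_mod_cast h1
    have h3 := mul_le_mul_of_nonneg_right h2 (show 0 ≤ (V6 : ℝ) ^ 4 by positivity)
    linarith
  obtain ⟨p, hp⟩ : ∃ p, p = pst ((s0 : ℝ) / V6) ((s1 : ℝ) / V6) s := ⟨_, rfl⟩
  obtain ⟨q, hq⟩ : ∃ p, p = pst ((S0 : ℝ) / V6) ((S1 : ℝ) / V6) S := ⟨_, rfl⟩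
  obtain ⟨u, hu⟩ : ∃ p, p = pst ((n0 : ℝ) / V6) ((n1 : ℝ) / V6) n := ⟨_, rfl⟩
  have p0 := pst_nonneg hs0 hs1
  have p1 := pst_le hs0 hs1
  have q0 := pst_nonneg hS0 hS1
  have q1 := pst_le hS0 hS1
  have u0 := pst_nonneg hn0 hn1
  have u1 := pst_le hn0 hn1
  have ep := pst_eq hs0 hs1
  have eq' := pst_eq hS0 hS1
  have eu := pst_eq hn0 hn1
  rw [← hp] at p0 p1 ep ⊢
  rw [← hq] at q0 q1 eq' ⊢
  rw [← hu] at u0 u1 eu ⊢
  have h2 : ∑ r ∈ range 8, bw8 p q u r * ((W r : ℝ) / (4 * (V6 : ℝ) ^ 4)) ≤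
      ∑ r ∈ range 8, bw8 p q u r *
        F.ev ((vx0 s0 s1 r : ℝ) / V6) ((vx1 S0 S1 r : ℝ) / V6) ((vx2 n0 n1 r : ℝ) / V6) :=
    sum_le_sum fun r hr => mul_le_mul_of_nonneg_left (k r (mem_range.1 hr))
      (bw8_nonneg p0 p1 q0 q1 u0 u1 r)
  refine h2.trans (le_of_eq ?_)
  rw [bw8_sum]
  rw [← ep, ← eq', ← eu, MF.ev_box]
  simp [vx0, vx1, vx2]

/-- check of all cells `(i, j, l)` which are needed: `g_i + G_j ≤ X` and the leak is possible -/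
def gridck (F : MF) (X : ℕ) (gs gS gn : List ℕ) (a b c : ℕ) (W : ℕ → ℕ → ℕ → ℕ → ℕ) : Bool :=
  (List.range a).all fun i => (List.range b).all fun j => (List.range c).all fun l =>
    (!(Nat.ble (gp gs i + gp gS j) X && nOK (gp gn l) (min (gp gs (i + 1)) (gp gS (j + 1))))) ||
      cellck F (gp gs i) (gp gs (i + 1)) (gp gS j) (gp gS (j + 1)) (gp gn l) (gp gn (l + 1))
        (W i j l)

/-- **from the row weights to a formula**: every state lies in a needed cell, and there the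
combination of the row weights is at most the formula -/
theorem grid_le {F : MF} {X : ℕ} {gs gS gn : List ℕ} {a b c : ℕ} {W : ℕ → ℕ → ℕ → ℕ → ℕ}
    (h : gridck F X gs gS gn (a + 1) (b + 1) (c + 1) W = true) {s S n : ℝ}
    (hs0 : (gp gs 0 : ℝ) / V6 ≤ s) (hs1 : s ≤ (gp gs (a + 1) : ℝ) / V6)
    (hS0 : (gp gS 0 : ℝ) / V6 ≤ S) (hS1 : S ≤ (gp gS (b + 1) : ℝ) / V6)
    (hn0 : (gp gn 0 : ℝ) / V6 ≤ n) (hn1 : n ≤ (gp gn (c + 1) : ℝ) / V6)
    (hX : s + S ≤ (X : ℝ) / V6) (hns : n ^ 2 ≤ 2 * s * (1 + n / 2) ^ 2)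
    (hnS : n ^ 2 ≤ 2 * S * (1 + n / 2) ^ 2) :
    ∃ i j l, i < a + 1 ∧ j < b + 1 ∧ l < c + 1 ∧
      gp gs i + gp gS j ≤ X ∧ nOK (gp gn l) (min (gp gs (i + 1)) (gp gS (j + 1))) = true ∧
      ((gp gs i : ℝ) / V6 ≤ s ∧ s ≤ (gp gs (i + 1) : ℝ) / V6) ∧
      ((gp gS j : ℝ) / V6 ≤ S ∧ S ≤ (gp gS (j + 1) : ℝ) / V6) ∧
      ((gp gn l : ℝ) / V6 ≤ n ∧ n ≤ (gp gn (l + 1) : ℝ) / V6) ∧
      ∑ r ∈ range 8, bw8 (pst ((gp gs i : ℝ) / V6) ((gp gs (i + 1) : ℝ) / V6) s)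
        (pst ((gp gS j : ℝ) / V6) ((gp gS (j + 1) : ℝ) / V6) S)
        (pst ((gp gn l : ℝ) / V6) ((gp gn (l + 1) : ℝ) / V6) n) r *
          ((W i j l r : ℝ) / (4 * (V6 : ℝ) ^ 4)) ≤ F.ev s S n := by
  have hV := V6_pos
  obtain ⟨i, i0, i1, i2⟩ := find_cell hs0 a hs1
  obtain ⟨j, j0, j1, j2⟩ := find_cell hS0 b hS1
  obtain ⟨l, l0, l1, l2⟩ := find_cell hn0 c hn1
  have hx : gp gs i + gp gS j ≤ X := by
    have h1 : ((gp gs i + gp gS j : ℕ) : ℝ) / V6 ≤ (X : ℝ) / V6 := by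
      push_cast
      rw [add_div]
      linarith
    have h2 := (div_le_div_iff_of_pos_right hV).1 h1
    exact_mod_cast h2
  have hm : nOK (gp gn l) (min (gp gs (i + 1)) (gp gS (j + 1))) = true := by
    rcases le_total (gp gs (i + 1)) (gp gS (j + 1)) with h1 | h1
    · rw [min_eq_left h1]
      exact nOK_of l1 i2 hns
    · rw [min_eq_right h1]
      exact nOK_of l1 j2 hnS
  refine ⟨i, j, l, i0, j0, l0, hx, hm, ⟨i1, i2⟩, ⟨j1, j2⟩, ⟨l1, l2⟩, ?_⟩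
  have h1 := List.all_eq_true.1 h i (List.mem_range.2 i0)
  have h2 := List.all_eq_true.1 h1 j (List.mem_range.2 j0)
  have h3 := List.all_eq_true.1 h2 l (List.mem_range.2 l0)
  have hx' : Nat.ble (gp gs i + gp gS j) X = true := by
    rw [Nat.ble_eq]
    exact hx
  rw [hx', hm, Bool.and_self, Bool.not_true, Bool.false_or] at h3
  exact cell_le h3 i1 i2 j1 j2 l1 l2

end Helper29.MEI
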