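import Mathlib

/-!
# Project MEI, row C: the flux field of helper75 (h75_M1.md, section 2), pure real algebra

`p - m' = (x, y, w)`, `u` a unit vector, `q = p - u`.
-/

namespace Helper29.MEI

/-- the denominator -/
noncomputable def Dn (x y w : ℝ) : ℝ := 1 / 4 + x ^ 2 / 8 + (y ^ 2 + w ^ 2)

/-- `B0 = 3/4 - |q - m'|²`, `q = p - u`, `|u| = 1` -/
noncomputable def B0 (x y w u1 u2 u3 : ℝ) : ℝ :=
  -1 / 4 - x ^ 2 - y ^ 2 - w ^ 2 + 2 * (x * u1 + y * u2 + w * u3)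

theorem Dn_ge (x y w : ℝ) : 1 / 4 ≤ Dn x y w := by unfold Dn; nlinarith [sq_nonneg x, sq_nonneg y, sq_nonneg w]

theorem Dn_pos (x y w : ℝ) : 0 < Dn x y w := lt_of_lt_of_le (by norm_num) (Dn_ge x y w)

/-- identity (F1) -/
theorem F1_id (x y w u1 u2 u3 : ℝ) :
    9 * x / (32 * Dn x y w) * u1 + y / (2 * Dn x y w) * u2 + w / (2 * Dn x y w) * u3
      = 1 / 4 + (B0 x y w u1 u2 u3 + 7 / 8 * x * (x - u1)) / (4 * Dn x y w) := by
  have h := (Dn_pos x y w).ne'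
  field_simp
  unfold B0 Dn
  ring

/-- on `Z` the denominator is at most `9/32` -/
theorem Dn_le {x y w r : ℝ} (hr : 0 ≤ r) (hrr : r ^ 2 = y ^ 2 + w ^ 2)
    (hZ : x ^ 2 + r ^ 2 + √2 * r ≤ 1 / 4) : Dn x y w ≤ 9 / 32 := by
  have h2 : (1.4142 : ℝ) ≤ √2 := Real.le_sqrt_of_sq_le (by norm_num)
  unfold Dn
  rw [← hrr]
  have h3 : x ^ 2 + r ^ 2 + 1.4142 * r ≤ 1 / 4 := by nlinarith
  have h4 : r ≤ 0.16 := by nlinarith [sq_nonneg x]
  nlinarith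

/-- (F1): the excess of the flux dominates `B0 / 2` -/
theorem F_excess {x y w u1 u2 u3 r : ℝ} (hr : 0 ≤ r) (hrr : r ^ 2 = y ^ 2 + w ^ 2)
    (hZ : x ^ 2 + r ^ 2 + √2 * r ≤ 1 / 4) (hx : |x| ≤ 1 / 2)
    (hq : |x - u1| ≤ B0 x y w u1 u2 u3) :
    B0 x y w u1 u2 u3 / 2 ≤ (B0 x y w u1 u2 u3 + 7 / 8 * x * (x - u1)) / (4 * Dn x y w) := by
  have hD := Dn_pos x y w
  have hD2 := Dn_le hr hrr hZ
  set b := B0 x y w u1 u2 u3 with hb
  have hb0 : 0 ≤ b := le_trans (abs_nonneg _) hq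
  have h1 : |x * (x - u1)| ≤ 1 / 2 * b := by
    rw [abs_mul]
    exact mul_le_mul hx hq (abs_nonneg _) (by norm_num)
  have h2 : 9 / 16 * b ≤ b + 7 / 8 * x * (x - u1) := by
    have := neg_abs_le (x * (x - u1))
    nlinarith
  rw [le_div_iff₀ (by positivity)]
  nlinarith [mul_nonneg hb0 (sub_nonneg.2 hD2)]

/-- `b ≥ 0` needs only `|x| ≤ 1` -/
theorem b_nonneg {x y w u1 u2 u3 : ℝ} (hx : |x| ≤ 1 / 2) (hq : |x - u1| ≤ B0 x y w u1 u2 u3) :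
    0 ≤ B0 x y w u1 u2 u3 + 7 / 8 * x * (x - u1) := by
  have h1 : |x * (x - u1)| ≤ 1 / 2 * B0 x y w u1 u2 u3 := by
    rw [abs_mul]
    exact mul_le_mul hx hq (abs_nonneg _) (by norm_num)
  have h0 : 0 ≤ B0 x y w u1 u2 u3 := le_trans (abs_nonneg _) hq
  have := neg_abs_le (x * (x - u1))
  nlinarith

/-- numerator of `div F` -/
noncomputable def nu (x y w : ℝ) : ℝ := 41 / 128 + 23 / 256 * x ^ 2 + 9 / 32 * (y ^ 2 + w ^ 2)

theorem lower_aux0 {r : ℝ} (hr : 0 ≤ r) (h : r ≤ 0.15893) :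
    0 ≤ 41 / 128 + 9 / 32 * r ^ 2 - 4.32 * (1 / 4 + r ^ 2) ^ 2 := by
  have h2 : r ^ 2 ≤ 0.02525875 := by nlinarith
  nlinarith [sq_nonneg r]

theorem lower_aux1 {r : ℝ} (hr : 0 ≤ r) (h : r ≤ 0.15893) :
    0 ≤ 41 / 128 + 23 / 256 * (1 / 4 - r ^ 2 - 1.4142 * r) + 9 / 32 * r ^ 2
      - 4.32 * (1 / 4 + (1 / 4 - r ^ 2 - 1.4142 * r) / 8 + r ^ 2) ^ 2 := by
  nlinarith [mul_nonneg hr (sub_nonneg.2 h), mul_nonneg (mul_nonneg hr hr) (sub_nonneg.2 h), mul_nonneg (mul_nonneg (mul_nonneg hr hr) hr) (sub_nonneg.2 h)]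

theorem div_lower {x r : ℝ} (hr : 0 ≤ r) (hZ : x ^ 2 + r ^ 2 + √2 * r ≤ 1 / 4) :
    4.32 * (1 / 4 + x ^ 2 / 8 + r ^ 2) ^ 2 ≤ 41 / 128 + 23 / 256 * x ^ 2 + 9 / 32 * r ^ 2 := by
  have h2 : (1.4142 : ℝ) ≤ √2 := Real.le_sqrt_of_sq_le (by norm_num)
  have h3 : x ^ 2 + r ^ 2 + 1.4142 * r ≤ 1 / 4 := by nlinarith
  have h4 : r ≤ 0.15893 := by
    by_contra h
    push Not at h
    nlinarith [sq_nonneg x]
  obtain ⟨ξ, hξ⟩ : ∃ ξ, ξ = x ^ 2 := ⟨_, rfl⟩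
  have hξ0 : 0 ≤ ξ := by rw [hξ]; positivity
  rw [← hξ] at h3 ⊢
  obtain ⟨e, he⟩ : ∃ e, e = 1 / 4 - r ^ 2 - 1.4142 * r := ⟨_, rfl⟩
  have hξe : ξ ≤ e := by rw [he]; linarith
  have a0 := lower_aux0 hr h4
  have a1 := lower_aux1 hr h4
  rw [← he] at a1
  rcases (le_trans hξ0 hξe).eq_or_lt with h0 | h0
  · have : ξ = 0 := le_antisymm (by linarith) hξ0
    rw [this]
    linarith
  · have key : e * (41 / 128 + 23 / 256 * ξ + 9 / 32 * r ^ 2 - 4.32 * (1 / 4 + ξ / 8 + r ^ 2) ^ 2)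
        = (e - ξ) * (41 / 128 + 9 / 32 * r ^ 2 - 4.32 * (1 / 4 + r ^ 2) ^ 2)
          + ξ * (41 / 128 + 23 / 256 * e + 9 / 32 * r ^ 2 - 4.32 * (1 / 4 + e / 8 + r ^ 2) ^ 2)
          + 4.32 / 64 * e * (ξ * (e - ξ)) := by ring
    have h5 : 0 ≤ e * (41 / 128 + 23 / 256 * ξ + 9 / 32 * r ^ 2
        - 4.32 * (1 / 4 + ξ / 8 + r ^ 2) ^ 2) := by
      rw [key]
      have := sub_nonneg.2 hξe
      positivity
    have := nonneg_of_mul_nonneg_right h5 h0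
    linarith

theorem upper_aux1 {r : ℝ} (hr : 0 ≤ r) (h : r ≤ 0.134) :
    0 ≤ 4.58 * (1 / 4 + (1 / 4 - r ^ 2 - 1.7321 * r) / 8 + r ^ 2) ^ 2
      - (41 / 128 + 23 / 256 * (1 / 4 - r ^ 2 - 1.7321 * r) + 9 / 32 * r ^ 2) := by
  nlinarith [mul_nonneg hr (sub_nonneg.2 h), sq_nonneg (r - 0.096), sq_nonneg (r * (r - 0.096)),
    sq_nonneg (r ^ 2 - 0.0092), mul_nonneg (mul_nonneg hr hr) (sub_nonneg.2 h)]

theorem div_upper {x r : ℝ} (hr : 0 ≤ r) (hZ : 1 / 4 ≤ x ^ 2 + r ^ 2 + √3 * r) :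
    41 / 128 + 23 / 256 * x ^ 2 + 9 / 32 * r ^ 2 ≤ 4.58 * (1 / 4 + x ^ 2 / 8 + r ^ 2) ^ 2 := by
  have h2 : √3 ≤ (1.7321 : ℝ) := by
    rw [Real.sqrt_le_left (by norm_num)]; norm_num
  have h3 : 1 / 4 ≤ x ^ 2 + r ^ 2 + 1.7321 * r := by nlinarith
  obtain ⟨ξ, hξ⟩ : ∃ ξ, ξ = x ^ 2 := ⟨_, rfl⟩
  have hξ0 : 0 ≤ ξ := by rw [hξ]; positivity
  rw [← hξ] at h3 ⊢
  rcases le_total r 0.134 with h4 | h4
  · by_cases h5 : 0 ≤ 1 / 4 - r ^ 2 - 1.7321 * r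
    · have a := upper_aux1 hr h4
      set e := 1 / 4 - r ^ 2 - 1.7321 * r with he
      have hξe : e ≤ ξ := by linarith
      nlinarith [mul_nonneg (sub_nonneg.2 hξe) h5, mul_nonneg (sub_nonneg.2 hξe) hξ0,
        mul_nonneg (sub_nonneg.2 hξe) (sq_nonneg r)]
    · push Not at h5
      have h6 : 0.1339 ≤ r := by
        by_contra h
        push Not at h
        nlinarith
      nlinarith [mul_nonneg hξ0 (sq_nonneg r), mul_nonneg hξ0 hξ0, sq_nonneg r]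
  · nlinarith [mul_nonneg hξ0 (sq_nonneg r), mul_nonneg hξ0 hξ0, sq_nonneg r]

/-! ### partial derivatives and the divergence -/

theorem hasDerivAt_Dn_x (x y w : ℝ) : HasDerivAt (fun a => Dn a y w) (x / 4) x := by
  have h := (((hasDerivAt_pow 2 x).div_const 8).const_add (1 / 4)).add_const (y ^ 2 + w ^ 2)
  refine h.congr_deriv ?_
  push_cast; ring

theorem hasDerivAt_Dn_y (x y w : ℝ) : HasDerivAt (fun a => Dn x a w) (2 * y) y := by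
  have h := ((hasDerivAt_pow 2 y).add_const (w ^ 2)).const_add (1 / 4 + x ^ 2 / 8)
  refine h.congr_deriv ?_
  push_cast; ring

theorem hasDerivAt_Dn_w (x y w : ℝ) : HasDerivAt (fun a => Dn x y a) (2 * w) w := by
  have h := ((hasDerivAt_pow 2 w).const_add (y ^ 2)).const_add (1 / 4 + x ^ 2 / 8)
  refine h.congr_deriv ?_
  push_cast; ring

theorem hasDerivAt_F1 (x y w : ℝ) : HasDerivAt (fun a => 9 * a / (32 * Dn a y w))
    ((9 * (32 * Dn x y w) - 9 * x * (32 * (x / 4))) / (32 * Dn x y w) ^ 2) x := by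
  have h := (Dn_pos x y w).ne'
  have h1 : HasDerivAt (fun a : ℝ => 9 * a) 9 x := by simpa using (hasDerivAt_id x).const_mul 9
  exact h1.div ((hasDerivAt_Dn_x x y w).const_mul 32) (by simpa using h)

theorem hasDerivAt_F2 (x y w : ℝ) : HasDerivAt (fun a => a / (2 * Dn x a w))
    ((1 * (2 * Dn x y w) - y * (2 * (2 * y))) / (2 * Dn x y w) ^ 2) y := by
  have h := (Dn_pos x y w).ne'
  exact (hasDerivAt_id y).div ((hasDerivAt_Dn_y x y w).const_mul 2) (by simpa using h)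

theorem hasDerivAt_F3 (x y w : ℝ) : HasDerivAt (fun a => a / (2 * Dn x y a))
    ((1 * (2 * Dn x y w) - w * (2 * (2 * w))) / (2 * Dn x y w) ^ 2) w := by
  have h := (Dn_pos x y w).ne'
  exact (hasDerivAt_id w).div ((hasDerivAt_Dn_w x y w).const_mul 2) (by simpa using h)

/-- (F2): the sum of the three partial derivatives -/
theorem div_eq (x y w : ℝ) :
    (9 * (32 * Dn x y w) - 9 * x * (32 * (x / 4))) / (32 * Dn x y w) ^ 2
      + (1 * (2 * Dn x y w) - y * (2 * (2 * y))) / (2 * Dn x y w) ^ 2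
      + (1 * (2 * Dn x y w) - w * (2 * (2 * w))) / (2 * Dn x y w) ^ 2
      = nu x y w / Dn x y w ^ 2 := by
  have h := (Dn_pos x y w).ne'
  field_simp
  unfold nu Dn
  ring

theorem div_ge {x y w r : ℝ} (hr : 0 ≤ r) (hrr : r ^ 2 = y ^ 2 + w ^ 2)
    (hZ : x ^ 2 + r ^ 2 + √2 * r ≤ 1 / 4) : 4.32 ≤ nu x y w / Dn x y w ^ 2 := by
  have hD := Dn_pos x y w
  rw [le_div_iff₀ (by positivity)]
  unfold nu Dn
  rw [← hrr]
  exact div_lower hr hZ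

theorem div_le {x y w r : ℝ} (hr : 0 ≤ r) (hrr : r ^ 2 = y ^ 2 + w ^ 2)
    (hZ : 1 / 4 ≤ x ^ 2 + r ^ 2 + √3 * r) : nu x y w / Dn x y w ^ 2 ≤ 4.58 := by
  have hD := Dn_pos x y w
  rw [div_le_iff₀ (by positivity)]
  unfold nu Dn
  rw [← hrr]
  exact div_upper hr hZ

/-- the third component of `F~ = 4 (w + 1/√2) F` -/
theorem hasDerivAt_Ft3 (x y w c : ℝ) : HasDerivAt (fun a => 4 * (a + c) * (a / (2 * Dn x y a)))
    (4 * 1 * (w / (2 * Dn x y w)) + 4 * (w + c) *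
      ((1 * (2 * Dn x y w) - w * (2 * (2 * w))) / (2 * Dn x y w) ^ 2)) w := by
  have h1 : HasDerivAt (fun a : ℝ => 4 * (a + c)) (4 * 1) w :=
    ((hasDerivAt_id w).add_const c).const_mul 4
  exact h1.mul (hasDerivAt_F3 x y w)

/-- (F3): divergence of `F~` -/
theorem divt_ge {x y w r : ℝ} (hr : 0 ≤ r) (hrr : r ^ 2 = y ^ 2 + w ^ 2) (hw : 0 ≤ w)
    (hZ : x ^ 2 + r ^ 2 + √2 * r ≤ 1 / 4) :
    12.2 ≤ 4 * (w + √2 / 2) * (nu x y w / Dn x y w ^ 2) + 4 * (w / (2 * Dn x y w)) := by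
  have h2 : (1.4142 : ℝ) ≤ √2 := Real.le_sqrt_of_sq_le (by norm_num)
  have h3 := div_ge hr hrr hZ
  have h4 : 0 ≤ w / (2 * Dn x y w) := div_nonneg hw (by have := Dn_pos x y w; positivity)
  have h5 : 4 * (√2 / 2) * 4.32 ≤ 4 * (w + √2 / 2) * (nu x y w / Dn x y w ^ 2) := by
    have h6 : 0 ≤ nu x y w / Dn x y w ^ 2 := le_trans (by norm_num) h3
    nlinarith [mul_nonneg hw h6]
  nlinarith

/-- (F3): `w_g ≥ u3 - <F~, u>` where `w_g = u3 - (w + 1/√2)` -/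
theorem Ft_ge {x y w u1 u2 u3 : ℝ} (hw : 0 ≤ w) (hx : |x| ≤ 1 / 2)
    (hq : |x - u1| ≤ B0 x y w u1 u2 u3) :
    w + √2 / 2 ≤ 4 * (w + √2 / 2) * (9 * x / (32 * Dn x y w)) * u1
      + 4 * (w + √2 / 2) * (y / (2 * Dn x y w)) * u2
      + 4 * (w + √2 / 2) * (w / (2 * Dn x y w)) * u3 := by
  have h1 := F1_id x y w u1 u2 u3
  have h2 : 0 ≤ (B0 x y w u1 u2 u3 + 7 / 8 * x * (x - u1)) / (4 * Dn x y w) :=
    div_nonneg (b_nonneg hx hq) (by have := Dn_pos x y w; positivity)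
  have h3 : 0 ≤ w + √2 / 2 := by positivity
  have h4 : 4 * (w + √2 / 2) * (9 * x / (32 * Dn x y w)) * u1
      + 4 * (w + √2 / 2) * (y / (2 * Dn x y w)) * u2
      + 4 * (w + √2 / 2) * (w / (2 * Dn x y w)) * u3
      = 4 * (w + √2 / 2) * (9 * x / (32 * Dn x y w) * u1 + y / (2 * Dn x y w) * u2
        + w / (2 * Dn x y w) * u3) := by ring
  rw [h4, h1]
  nlinarith [mul_nonneg h3 h2]

/-! ### the coupling identity of section 6 -/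

/-- `A_p(y_q') + B_q'(x_p) = 2 w w' + (1 - |p - q'|²)`, with `p - m' = (x, y, w)`,
`-q' = (x', y', 2 t0 + w')`, `t0 = √2/4`, `p = (x, y, t0 + w)`. -/
theorem coupling (x y w x' y' w' : ℝ) :
    (1 / 4 - x ^ 2 - y ^ 2 - w ^ 2 - √2 * w + 2 * (-y') * y)
      + (1 / 4 - x' ^ 2 - y' ^ 2 - w' ^ 2 - √2 * w' - 2 * x * x')
      = 2 * w * w' + (1 - ((x + x') ^ 2 + (y + y') ^ 2 + ((√2 / 4 + w) + (√2 / 4 + w')) ^ 2)) := by
  have : √2 * √2 = 2 := Real.mul_self_sqrt (by norm_num)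
  linear_combination (1 / 4) * this

end Helper29.MEI
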