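import Pool.Agent.Helper93.MEI.Bar

/-!
# Project MEI, all bodies, regime I: Lemma X and the layer

(row R4 of h29_reg1.md) `a 0, a 1` are the ends of the edge, `a 2, a 3` those of the opposite edge.
-/

namespace Helper29.MEI

open Set Metric MeasureTheory Helper80.CW Helper14.CW Helper93.MEI
open scoped RealInnerProductSpace Real

/-- the distance of a point from the edge line -/
noncomputable def eR (a : Fin 4 → E3) (x : E3) : ℝ := √(eY a x ^ 2 + eW a x ^ 2)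

/-- the two weights -/
noncomputable def mu0 (a : Fin 4 → E3) (x : E3) : ℝ := (1 + eR a x / (√3 / 2)) / 2 + eX a x

noncomputable def mu1 (a : Fin 4 → E3) (x : E3) : ℝ := (1 + eR a x / (√3 / 2)) / 2 - eX a x

theorem eR_nonneg (a : Fin 4 → E3) (x : E3) : 0 ≤ eR a x := Real.sqrt_nonneg _

theorem eR_sq (a : Fin 4 → E3) (x : E3) : eR a x ^ 2 = eY a x ^ 2 + eW a x ^ 2 :=
  Real.sq_sqrt (by positivity)

theorem s3s : √3 * √3 = (3 : ℝ) := Real.mul_self_sqrt (by norm_num)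

variable {a : Fin 4 → E3}

/-- **Lemma X** -/
theorem lemX (h : Gram4 (al a)) (p q : E3) :
    ‖p - q‖ ^ 2 ≤ eX a p ^ 2 + (eR a p + √3 / 2) ^ 2 + mu0 a p * Qv a 0 q + mu1 a p * Qv a 1 q := by
  have hr := eR_nonneg a p
  have hr2 := eR_sq a p
  have s3 := s3s
  have hs : (0 : ℝ) < √3 := by positivity
  rw [norm_sub_sq_e h, Qv0_e h, Qv1_e h]
  unfold mu0 mu1
  set r := eR a p
  set x := eX a p
  set y := eY a p
  set w := eW a p
  set X := eX a q
  set Y := eY a q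
  set W := eW a q
  -- the square root of `Y² + W²`
  have hρ0 : 0 ≤ √(Y ^ 2 + W ^ 2) := Real.sqrt_nonneg _
  have hρ2 : √(Y ^ 2 + W ^ 2) ^ 2 = Y ^ 2 + W ^ 2 := Real.sq_sqrt (by positivity)
  set ρ := √(Y ^ 2 + W ^ 2)
  have hcs : -(r * ρ) ≤ y * Y + w * W := by
    have h1 : (y * Y + w * W) ^ 2 ≤ (r * ρ) ^ 2 := by
      rw [mul_pow, hr2, hρ2]
      nlinarith [sq_nonneg (y * W - w * Y)]
    exact (abs_le_of_sq_le_sq' h1 (mul_nonneg hr hρ0)).1
  have hk : r / (√3 / 2) = 2 / 3 * √3 * r := by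
    field_simp
    linear_combination (-r) * s3
  rw [hk]
  have hmain : 0 ≤ 2 / 3 * √3 * r * (X ^ 2 + (ρ - √3 / 2) ^ 2) := by positivity
  have h3 : 2 / 3 * √3 * r * (X ^ 2 + (ρ - √3 / 2) ^ 2) =
      2 / 3 * √3 * r * (X ^ 2 + ρ ^ 2) - 2 * r * ρ + √3 / 2 * r := by
    linear_combination (-2 / 3 * r * ρ + √3 / 6 * r) * s3
  rw [h3, hρ2] at hmain
  nlinarith

theorem mu0_nonneg {x : E3} (hx : |eX a x| ≤ 1 / 2) : 0 ≤ mu0 a x := by
  have h1 : 0 ≤ eR a x / (√3 / 2) := div_nonneg (eR_nonneg a x) (by positivity)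
  have h2 := (abs_le.1 hx).1
  unfold mu0
  linarith

theorem mu1_nonneg {x : E3} (hx : |eX a x| ≤ 1 / 2) : 0 ≤ mu1 a x := by
  have h1 : 0 ≤ eR a x / (√3 / 2) := div_nonneg (eR_nonneg a x) (by positivity)
  have h2 := (abs_le.1 hx).2
  unfold mu1
  linarith

/-- the weights inside the spindle `X` -/
theorem mu_le {x : E3} (h : eX a x ^ 2 + eR a x ^ 2 + √3 * eR a x ≤ 1 / 4) :
    eR a x ≤ 0.134 ∧ mu0 a x ≤ 0.5774 + eX a x ∧ mu1 a x ≤ 0.5774 - eX a x := by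
  have hr := eR_nonneg a x
  have s3 := s3s
  have hs : (0 : ℝ) < √3 := by positivity
  have h17 : (1.732 : ℝ) < √3 := by
    apply Real.lt_sqrt_of_sq_lt
    norm_num
  have h18 : √3 < (1.7321 : ℝ) := by
    rw [Real.sqrt_lt' (by norm_num)]
    norm_num
  have h1 : eR a x ≤ 0.134 := by
    by_contra hneg
    push Not at hneg
    nlinarith [sq_nonneg (eX a x)]
  have h1' : eR a x ≤ √3 / 2 * 0.1548 := by
    by_contra hneg
    push Not at hneg
    nlinarith [sq_nonneg (eX a x)]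
  have h2 : eR a x / (√3 / 2) ≤ 0.1548 := by
    rw [div_le_iff₀ (by positivity)]
    linarith
  refine ⟨h1, ?_, ?_⟩
  · unfold mu0
    linarith
  · unfold mu1
    linarith

/-- **The layer**: a point of the edge cell which is not in the ball hull lies outside the reduced
spindle. `K` is only used through `hull`. -/
theorem layer (h : Gram4 (al a)) {K : Set E3} (hull : ∀ p, (∀ q ∈ K, ‖p - q‖ ≤ 1) → p ∈ K)
    {s0 s1 : ℝ} (h0 : ∀ q ∈ K, Qv a 0 q ≤ s0) (h1 : ∀ q ∈ K, Qv a 1 q ≤ s1)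
    {p : E3} (hp : |eX a p| ≤ 1 / 2) (hpK : p ∉ K) :
    1 / 4 - (mu0 a p * s0 + mu1 a p * s1) < eX a p ^ 2 + eR a p ^ 2 + √3 * eR a p := by
  have s3 := s3s
  obtain ⟨q, hq, hpq⟩ : ∃ q ∈ K, 1 < ‖p - q‖ := by
    by_contra hneg
    push Not at hneg
    exact hpK (hull p hneg)
  have h2 : 1 < ‖p - q‖ ^ 2 := by nlinarith
  have h3 := lemX h p q
  have h4 := mul_le_mul_of_nonneg_left (h0 q hq) (mu0_nonneg hp)
  have h5 := mul_le_mul_of_nonneg_left (h1 q hq) (mu1_nonneg hp)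
  nlinarith

/-- points of the spindle have `|x| ≤ 1/2` -/
theorem spindle_x {p : E3} (h : eX a p ^ 2 + eR a p ^ 2 + √3 * eR a p ≤ 1 / 4) :
    |eX a p| ≤ 1 / 2 := by
  have h1 : 0 ≤ √3 * eR a p := mul_nonneg (Real.sqrt_nonneg _) (eR_nonneg a p)
  have h2 := sq_nonneg (eR a p)
  apply abs_le_of_sq_le_sq _ (by norm_num)
  linarith

/-- the layer with linear weights: `A_X \ K` -/
theorem layer' (h : Gram4 (al a)) {K : Set E3} (hull : ∀ p, (∀ q ∈ K, ‖p - q‖ ≤ 1) → p ∈ K)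
    {s0 s1 : ℝ} (hs0 : 0 ≤ s0) (hs1 : 0 ≤ s1)
    (h0 : ∀ q ∈ K, Qv a 0 q ≤ s0) (h1 : ∀ q ∈ K, Qv a 1 q ≤ s1)
    {p : E3} (hp : eX a p ^ 2 + eR a p ^ 2 + √3 * eR a p ≤ 1 / 4) (hpK : p ∉ K) :
    1 / 4 - ((0.5774 + eX a p) * s0 + (0.5774 - eX a p) * s1)
      < eX a p ^ 2 + eR a p ^ 2 + √3 * eR a p := by
  have h2 := layer h hull h0 h1 (spindle_x hp) hpK
  obtain ⟨_, h3, h4⟩ := mu_le hp
  have h5 := mul_le_mul_of_nonneg_right h3 hs0
  have h6 := mul_le_mul_of_nonneg_right h4 hs1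
  linarith

end Helper29.MEI
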