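import Pool.Agent.Helper29.MEI.CellB

/-!
# Project MEI (M2), w-term: product weights of the rows of a cell

`pw n u v` = product of two families of weights, row `r = i + n j`; `sx3` = weights of the simplex
rows `(0,0), (2w,0), (0,2w)` of the two weak leaks; `bt2` = weights of a bit; `nUp` = upper bound
of the leak of a cell; `grid2_le` = cells `(i, j)` of the pair `(s, S)` with the leak range
`[0, nb i j]`.
-/

set_option autoImplicit false

namespace Helper29.MEI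

open Finset

/-! ### Product weights -/

/-- product weights, row `r = i + n j` -/
noncomputable def pw (n : ℕ) (u v : ℕ → ℝ) (r : ℕ) : ℝ := u (r % n) * v (r / n)

theorem pw_nonneg {n : ℕ} {u v : ℕ → ℝ} (hu : ∀ i, 0 ≤ u i) (hv : ∀ i, 0 ≤ v i) (r : ℕ) :
    0 ≤ pw n u v r := mul_nonneg (hu _) (hv _)

theorem pw_sum {n : ℕ} (hn : 0 < n) (u v : ℕ → ℝ) (f : ℕ → ℕ → ℝ) : ∀ m : ℕ,
    ∑ r ∈ range (n * m), pw n u v r * f (r % n) (r / n) =
      ∑ j ∈ range m, v j * ∑ i ∈ range n, u i * f i j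
  | 0 => by simp
  | m + 1 => by
    rw [Nat.mul_succ, sum_range_add, pw_sum hn u v f m, sum_range_succ, add_right_inj, mul_sum]
    refine sum_congr rfl fun i hi => ?_
    have hi' := mem_range.1 hi
    have e1 : (n * m + i) % n = i := by
      rw [Nat.mul_add_mod, Nat.mod_eq_of_lt hi']
    have e2 : (n * m + i) / n = m := by
      rw [Nat.mul_add_div hn, Nat.div_eq_of_lt hi', add_zero]
    unfold pw
    rw [e1, e2]
    ring

theorem pw_one {n m : ℕ} (hn : 0 < n) {u v : ℕ → ℝ} (hu : ∑ i ∈ range n, u i = 1)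
    (hv : ∑ i ∈ range m, v i = 1) : ∑ r ∈ range (n * m), pw n u v r = 1 := by
  have h := pw_sum hn u v (fun _ _ => 1) m
  simp only [mul_one] at h
  rw [h, hu]
  simpa using hv

/-- a number of the first factor -/
theorem pw_fst {n m : ℕ} (hn : 0 < n) {u v : ℕ → ℝ} (hv : ∑ i ∈ range m, v i = 1)
    (f : ℕ → ℝ) : ∑ r ∈ range (n * m), pw n u v r * f (r % n) = ∑ i ∈ range n, u i * f i := by
  have h := pw_sum hn u v (fun i _ => f i) m
  rw [h, ← sum_mul, hv, one_mul]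

/-- a number of the second factor -/
theorem pw_snd {n m : ℕ} (hn : 0 < n) {u v : ℕ → ℝ} (hu : ∑ i ∈ range n, u i = 1)
    (f : ℕ → ℝ) : ∑ r ∈ range (n * m), pw n u v r * f (r / n) = ∑ i ∈ range m, v i * f i := by
  have h := pw_sum hn u v (fun _ j => f j) m
  rw [h]
  refine sum_congr rfl fun j _ => ?_
  rw [← sum_mul, hu, one_mul]

/-! ### Simplex rows of the two weak leaks, bit -/

/-- weights of the rows `(0,0), (2w,0), (0,2w)`; `x = n_j / (2w)`, `y = n_l / (2w)` -/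
noncomputable def sx3 (x y : ℝ) : ℕ → ℝ
  | 0 => 1 - x - y
  | 1 => x
  | 2 => y
  | _ => 0

theorem sx3_nonneg {x y : ℝ} (hx : 0 ≤ x) (hy : 0 ≤ y) (h : x + y ≤ 1) : ∀ r, 0 ≤ sx3 x y r
  | 0 => by
    show 0 ≤ 1 - x - y
    linarith
  | 1 => hx
  | 2 => hy
  | _ + 3 => le_rfl

theorem sx3_sum (x y : ℝ) (f : ℕ → ℝ) : ∑ r ∈ range 3, sx3 x y r * f r =
    (1 - x - y) * f 0 + x * f 1 + y * f 2 := by
  simp only [sum_range_succ, sum_range_zero, zero_add, sx3]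

theorem sx3_one (x y : ℝ) : ∑ r ∈ range 3, sx3 x y r = 1 := by
  have h := sx3_sum x y fun _ => 1
  simp only [mul_one] at h
  rw [h]
  ring

/-- the bit -/
noncomputable def bt2 (b : ℝ) : ℕ → ℝ
  | 0 => 1 - b
  | 1 => b
  | _ => 0

theorem bt2_nonneg {b : ℝ} (h0 : 0 ≤ b) (h1 : b ≤ 1) : ∀ r, 0 ≤ bt2 b r
  | 0 => sub_nonneg.2 h1
  | 1 => h0
  | _ + 2 => le_rfl

theorem bt2_sum (b : ℝ) (f : ℕ → ℝ) : ∑ r ∈ range 2, bt2 b r * f r = (1 - b) * f 0 + b * f 1 := by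
  simp only [sum_range_succ, sum_range_zero, zero_add, bt2]

theorem bt2_one (b : ℝ) : ∑ r ∈ range 2, bt2 b r = 1 := by
  have h := bt2_sum b fun _ => 1
  simp only [mul_one] at h
  rw [h]
  ring

/-! ### The upper end of the leak -/

/-- `nb` bounds the leak for a minimum of the violations at most `m1` -/
def nUp (nb m1 : ℕ) : Bool := Nat.ble (m1 * ((2 * V6 + nb) * (2 * V6 + nb))) (2 * (nb * nb) * V6)

theorem nUp_le {nb m1 : ℕ} (h : nUp nb m1 = true) {n m : ℝ} (hn : 0 ≤ n)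
    (hm : m ≤ (m1 : ℝ) / V6) (hnm : n ^ 2 ≤ 2 * m * (1 + n / 2) ^ 2) : n ≤ (nb : ℝ) / V6 := by
  have hV := V6_pos
  unfold nUp at h
  rw [Nat.ble_eq] at h
  have h' : ((m1 * ((2 * V6 + nb) * (2 * V6 + nb)) : ℕ) : ℝ) ≤
      ((2 * (nb * nb) * V6 : ℕ) : ℝ) := by exact_mod_cast h
  push_cast at h'
  obtain ⟨a, ha⟩ : ∃ a, a = (nb : ℝ) / V6 := ⟨_, rfl⟩
  obtain ⟨b, hb⟩ : ∃ b, b = (m1 : ℝ) / V6 := ⟨_, rfl⟩
  have ha0 : 0 ≤ a := by rw [ha]; positivity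
  have e0 : (nb : ℝ) = a * V6 := by rw [ha]; field_simp
  have e1 : (m1 : ℝ) = b * V6 := by rw [hb]; field_simp
  rw [e0, e1] at h'
  rw [← ha]
  rw [← hb] at hm
  have k1 : b * (2 + a) ^ 2 ≤ 2 * a ^ 2 := by
    refine le_of_mul_le_mul_right ?_ (show (0 : ℝ) < (V6 : ℝ) ^ 3 by positivity)
    nlinarith
  by_contra hc
  push Not at hc
  -- `a < n`
  have k2 : 2 * n ^ 2 ≤ m * (2 + n) ^ 2 := by nlinarith
  have k3 : m * (2 + n) ^ 2 ≤ b * (2 + n) ^ 2 := mul_le_mul_of_nonneg_right hm (sq_nonneg _)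
  have k4 : 2 * n ^ 2 * (2 + a) ^ 2 ≤ 2 * a ^ 2 * (2 + n) ^ 2 := by
    have q1 := mul_le_mul_of_nonneg_right (k2.trans k3) (sq_nonneg (2 + a))
    have q2 := mul_le_mul_of_nonneg_right k1 (sq_nonneg (2 + n))
    nlinarith
  have k5 : a * (2 + n) < n * (2 + a) := by nlinarith
  have k6 : (a * (2 + n)) ^ 2 < (n * (2 + a)) ^ 2 :=
    pow_lt_pow_left₀ k5 (by positivity) (by norm_num)
  nlinarith

/-! ### Cells of the pair `(s, S)` -/

/-- check of all needed cells `(i, j)`: leak range `[0, nb i j]`, the eight row weights -/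
def grid2ck (F : MF) (X : ℕ) (gs gS : List ℕ) (a b : ℕ) (nb : ℕ → ℕ → ℕ)
    (W : ℕ → ℕ → ℕ → ℕ) : Bool :=
  (List.range a).all fun i => (List.range b).all fun j =>
    (!(Nat.ble (gp gs i + gp gS j) X)) ||
      (nUp (nb i j) (min (gp gs (i + 1)) (gp gS (j + 1))) &&
        cellck F (gp gs i) (gp gs (i + 1)) (gp gS j) (gp gS (j + 1)) 0 (nb i j) (W i j))

/-- **from the row weights to a formula**, cells of the pair `(s, S)` -/
theorem grid2_le {F : MF} {X : ℕ} {gs gS : List ℕ} {a b : ℕ} {nb : ℕ → ℕ → ℕ}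
    {W : ℕ → ℕ → ℕ → ℕ} (h : grid2ck F X gs gS (a + 1) (b + 1) nb W = true) {s S n : ℝ}
    (hs0 : (gp gs 0 : ℝ) / V6 ≤ s) (hs1 : s ≤ (gp gs (a + 1) : ℝ) / V6)
    (hS0 : (gp gS 0 : ℝ) / V6 ≤ S) (hS1 : S ≤ (gp gS (b + 1) : ℝ) / V6) (hn : 0 ≤ n)
    (hX : s + S ≤ (X : ℝ) / V6) (hns : n ^ 2 ≤ 2 * s * (1 + n / 2) ^ 2)
    (hnS : n ^ 2 ≤ 2 * S * (1 + n / 2) ^ 2) :
    ∃ i j, i < a + 1 ∧ j < b + 1 ∧ gp gs i + gp gS j ≤ X ∧
      ((gp gs i : ℝ) / V6 ≤ s ∧ s ≤ (gp gs (i + 1) : ℝ) / V6) ∧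
      ((gp gS j : ℝ) / V6 ≤ S ∧ S ≤ (gp gS (j + 1) : ℝ) / V6) ∧
      n ≤ (nb i j : ℝ) / V6 ∧
      ∑ r ∈ range 8, bw8 (pst ((gp gs i : ℝ) / V6) ((gp gs (i + 1) : ℝ) / V6) s)
        (pst ((gp gS j : ℝ) / V6) ((gp gS (j + 1) : ℝ) / V6) S)
        (pst (((0 : ℕ) : ℝ) / V6) ((nb i j : ℝ) / V6) n) r *
          ((W i j r : ℝ) / (4 * (V6 : ℝ) ^ 4)) ≤ F.ev s S n := by
  have hV := V6_pos
  obtain ⟨i, i0, i1, i2⟩ := find_cell hs0 a hs1
  obtain ⟨j, j0, j1, j2⟩ := find_cell hS0 b hS1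
  have hx : gp gs i + gp gS j ≤ X := by
    have h1 : ((gp gs i + gp gS j : ℕ) : ℝ) / V6 ≤ (X : ℝ) / V6 := by
      push_cast
      rw [add_div]
      linarith
    have h2 := (div_le_div_iff_of_pos_right hV).1 h1
    exact_mod_cast h2
  have h1 := List.all_eq_true.1 h i (List.mem_range.2 i0)
  have h2 := List.all_eq_true.1 h1 j (List.mem_range.2 j0)
  have hx' : Nat.ble (gp gs i + gp gS j) X = true := by
    rw [Nat.ble_eq]
    exact hx
  rw [hx', Bool.not_true, Bool.false_or, Bool.and_eq_true] at h2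
  have hm : n ≤ (nb i j : ℝ) / V6 := by
    rcases le_total (gp gs (i + 1)) (gp gS (j + 1)) with h3 | h3
    · rw [min_eq_left h3] at h2
      exact nUp_le h2.1 hn i2 hns
    · rw [min_eq_right h3] at h2
      exact nUp_le h2.1 hn j2 hnS
  exact ⟨i, j, i0, j0, hx, ⟨i1, i2⟩, ⟨j1, j2⟩, hm,
    cell_le h2.2 i1 i2 j1 j2 (by simpa using hn) hm⟩

end Helper29.MEI
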