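import Pool.Agent.Helper29.MEI.CellC
import Pool.Agent.Helper99.MEI.WT2

/-!
# Project MEI (M2), w-term: the 48 rows of a cell

Row `r = i + 8 e + 16 d`: `i < 8` vertex of the box `[s0,s1] × [S0,S1] × [0,nb]` of level, violation
and leak of the corner, `e < 2` bit of the apex, `d < 3` simplex row `(0,0), (wj,0), (0,wl)` of the
two other leaks; the two other violations are constants. `WN` = half of a formula of a corner;
`cell48` = means of the rows, `cost48` = cost of the corner by two formulas.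
-/

set_option autoImplicit false

namespace Helper29.MEI

open Finset Helper60.R8 Helper99.MEI
open Helper60.R7 (U U_pos)

/-! ### Formulas -/

/-- half of a formula of a corner: affine in `(s, S)` for fixed leaks, affine in the leaks;
`o` in units `10⁻¹²`, the others in units `10⁻⁶` -/
structure WN where
  o : ℕ
  s : ℕ
  S : ℕ
  n : ℕ
  sn : ℕ
  Sn : ℕ
  j : ℕ
  sj : ℕ
  Sj : ℕ
  l : ℕ
  sl : ℕ
  Sl : ℕ

/-- its value -/
noncomputable def WN.ev (F : WN) (s S n nj nl : ℝ) : ℝ :=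
  (F.o : ℝ) / (V6 : ℝ) ^ 2 + (F.s : ℝ) / V6 * s + (F.S : ℝ) / V6 * S
    + n * ((F.n : ℝ) / V6 + (F.sn : ℝ) / V6 * s + (F.Sn : ℝ) / V6 * S)
    + nj * ((F.j : ℝ) / V6 + (F.sj : ℝ) / V6 * s + (F.Sj : ℝ) / V6 * S)
    + nl * ((F.l : ℝ) / V6 + (F.sl : ℝ) / V6 * s + (F.Sl : ℝ) / V6 * S)

/-- its value in units `10⁻²⁴` -/
def WN.nat (F : WN) (s S n nj nl : ℕ) : ℕ :=
  V6 * V6 * (F.o + F.s * s + F.S * S)
    + V6 * (n * (V6 * F.n + F.sn * s + F.Sn * S)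
    + nj * (V6 * F.j + F.sj * s + F.Sj * S)
    + nl * (V6 * F.l + F.sl * s + F.Sl * S))

theorem WN.nat_eq (F : WN) (s S n nj nl : ℕ) :
    ((F.nat s S n nj nl : ℕ) : ℝ) / (V6 : ℝ) ^ 4 =
      F.ev ((s : ℝ) / V6) ((S : ℝ) / V6) ((n : ℝ) / V6) ((nj : ℝ) / V6) ((nl : ℝ) / V6) := by
  have h := V6_pos
  unfold WN.nat WN.ev
  push_cast
  field_simp
  ring

/-- a formula: difference of two halves -/
structure WF where
  P : WN
  M : WN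

/-- its value -/
noncomputable def WF.ev (F : WF) (s S n nj nl : ℝ) : ℝ :=
  F.P.ev s S n nj nl - F.M.ev s S n nj nl

/-- the formula is at least `w / 4` at a vertex -/
def WF.ge (F : WF) (w s S n nj nl : ℕ) : Bool :=
  Nat.ble (w + 4 * F.M.nat s S n nj nl) (4 * F.P.nat s S n nj nl)

/-- the formula is at most `t` at a vertex -/
def WF.le (F : WF) (t s S n nj nl : ℕ) : Bool :=
  Nat.ble (F.P.nat s S n nj nl) (F.M.nat s S n nj nl + t)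

theorem WF.ge_ev {F : WF} {w s S n nj nl : ℕ} (h : F.ge w s S n nj nl = true) :
    (w : ℝ) / (4 * (V6 : ℝ) ^ 4) ≤
      F.ev ((s : ℝ) / V6) ((S : ℝ) / V6) ((n : ℝ) / V6) ((nj : ℝ) / V6) ((nl : ℝ) / V6) := by
  have hV := V6_pos
  unfold WF.ge at h
  rw [Nat.ble_eq] at h
  have h1 : (w : ℝ) + 4 * ((F.M.nat s S n nj nl : ℕ) : ℝ) ≤
      4 * ((F.P.nat s S n nj nl : ℕ) : ℝ) := by exact_mod_cast h
  unfold WF.ev
  rw [← WN.nat_eq, ← WN.nat_eq, ← sub_div, div_le_div_iff₀ (by positivity) (by positivity)]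
  have h2 := mul_le_mul_of_nonneg_right h1 (show 0 ≤ (V6 : ℝ) ^ 4 by positivity)
  linarith

theorem WF.le_ev {F : WF} {t s S n nj nl : ℕ} (h : F.le t s S n nj nl = true) :
    F.ev ((s : ℝ) / V6) ((S : ℝ) / V6) ((n : ℝ) / V6) ((nj : ℝ) / V6) ((nl : ℝ) / V6) ≤
      (t : ℝ) / (V6 : ℝ) ^ 4 := by
  have hV := V6_pos
  unfold WF.le at h
  rw [Nat.ble_eq] at h
  have h1 : ((F.P.nat s S n nj nl : ℕ) : ℝ) ≤ ((F.M.nat s S n nj nl : ℕ) : ℝ) + t := by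
    exact_mod_cast h
  unfold WF.ev
  rw [← WN.nat_eq, ← WN.nat_eq, ← sub_div]
  exact div_le_div_of_nonneg_right (by linarith) (by positivity)

/-! ### Cells -/

/-- numbers of a cell, units `10⁻⁶` -/
structure CB where
  s0 : ℕ
  s1 : ℕ
  S0 : ℕ
  S1 : ℕ
  nb : ℕ
  Sj : ℕ
  Sl : ℕ
  wj : ℕ
  wl : ℕ

/-- first weak leak of a row -/
def vj (w r : ℕ) : ℕ := if r = 1 then w else 0
/-- second weak leak of a row -/
def vl (w r : ℕ) : ℕ := if r = 2 then w else 0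

/-- row `r` of a cell -/
def CB.row (c : CB) (r : ℕ) : RN :=
  ⟨vx0 c.s0 c.s1 (r % 16 % 8), vx1 c.S0 c.S1 (r % 16 % 8), c.Sj, c.Sl,
    vx2 0 c.nb (r % 16 % 8), vj c.wj (r / 16), vl c.wl (r / 16), V6 * (r % 16 / 8)⟩

/-- the rows of a cell -/
def CB.rs (c : CB) : List RN := (List.range 48).map c.row

theorem CB.rs_len (c : CB) : c.rs.length = 48 := by
  unfold CB.rs
  rw [List.length_map, List.length_range]

theorem CB.rs_get (c : CB) {r : ℕ} (hr : r < 48) : c.rs.getD r rn0 = c.row r := by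
  unfold CB.rs
  rw [List.getD_eq_getElem _ _ (by rw [List.length_map, List.length_range]; exact hr),
    List.getElem_map, List.getElem_range]

/-- the weights of the rows -/
noncomputable def CB.lam (c : CB) (s S n nj nl β : ℝ) : ℕ → ℝ :=
  pw 16 (pw 8 (bw8 (pst ((c.s0 : ℝ) / V6) ((c.s1 : ℝ) / V6) s)
      (pst ((c.S0 : ℝ) / V6) ((c.S1 : ℝ) / V6) S)
      (pst (((0 : ℕ) : ℝ) / V6) ((c.nb : ℝ) / V6) n)) (bt2 β))
    (sx3 (nj / ((c.wj : ℝ) / V6)) (nl / ((c.wl : ℝ) / V6)))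

/-- a state in a cell -/
structure InB (c : CB) (s S n nj nl : ℝ) : Prop where
  s0 : (c.s0 : ℝ) / V6 ≤ s
  s1 : s ≤ (c.s1 : ℝ) / V6
  S0 : (c.S0 : ℝ) / V6 ≤ S
  S1 : S ≤ (c.S1 : ℝ) / V6
  n0 : 0 ≤ n
  n1 : n ≤ (c.nb : ℝ) / V6
  j0 : 0 ≤ nj
  l0 : 0 ≤ nl
  wj : 0 < c.wj
  wl : 0 < c.wl
  w : nj / ((c.wj : ℝ) / V6) + nl / ((c.wl : ℝ) / V6) ≤ 1

/-- sums with the weights -/
theorem CB.lam_sum (c : CB) (s S n nj nl β : ℝ) (f : ℕ → ℕ → ℕ → ℝ) :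
    ∑ r ∈ range 48, c.lam s S n nj nl β r * f (r % 16 % 8) (r % 16 / 8) (r / 16) =
      ∑ d ∈ range 3, sx3 (nj / ((c.wj : ℝ) / V6)) (nl / ((c.wl : ℝ) / V6)) d *
        ∑ e ∈ range 2, bt2 β e *
        ∑ i ∈ range 8, bw8 (pst ((c.s0 : ℝ) / V6) ((c.s1 : ℝ) / V6) s)
          (pst ((c.S0 : ℝ) / V6) ((c.S1 : ℝ) / V6) S)
          (pst (((0 : ℕ) : ℝ) / V6) ((c.nb : ℝ) / V6) n) i * f i e d := by
  unfold CB.lam
  rw [show (48 : ℕ) = 16 * 3 by rfl,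
    pw_sum (by norm_num) _ _ (fun i d => f (i % 8) (i / 8) d) 3]
  refine sum_congr rfl fun d _ => ?_
  congr 1
  rw [show (16 : ℕ) = 8 * 2 by rfl, pw_sum (by norm_num) _ _ (fun i e => f i e d) 2]

theorem CB.lam_one (c : CB) (s S n nj nl β : ℝ) :
    ∑ r ∈ range 48, c.lam s S n nj nl β r = 1 := by
  have k := CB.lam_sum c s S n nj nl β (fun _ _ _ => 1)
  simp only [mul_one, bw8_one, sx3_one, bt2_one] at k
  exact k

/-- a constant -/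
theorem CB.lam_const (c : CB) (s S n nj nl β v : ℝ) :
    ∑ r ∈ range 48, c.lam s S n nj nl β r * v = v := by
  rw [← sum_mul, CB.lam_one, one_mul]

/-- a number of the box -/
theorem CB.lam_i (c : CB) (s S n nj nl β : ℝ) (f : ℕ → ℝ) :
    ∑ r ∈ range 48, c.lam s S n nj nl β r * f (r % 16 % 8) =
    ∑ i ∈ range 8, bw8 (pst ((c.s0 : ℝ) / V6) ((c.s1 : ℝ) / V6) s)
          (pst ((c.S0 : ℝ) / V6) ((c.S1 : ℝ) / V6) S)
          (pst (((0 : ℕ) : ℝ) / V6) ((c.nb : ℝ) / V6) n) i * f i := by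
  have k := CB.lam_sum c s S n nj nl β (fun i _ _ => f i)
  rw [k]
  simp only [← sum_mul, sx3_one, bt2_one, one_mul]

section
variable {c : CB} {s S n nj nl β : ℝ} (h : InB c s S n nj nl)
include h

theorem InB.pos : 0 < (c.wj : ℝ) / V6 ∧ 0 < (c.wl : ℝ) / V6 :=
  ⟨div_pos (Nat.cast_pos.2 h.wj) V6_pos, div_pos (Nat.cast_pos.2 h.wl) V6_pos⟩

theorem InB.bw : ∀ r, 0 ≤ bw8 (pst ((c.s0 : ℝ) / V6) ((c.s1 : ℝ) / V6) s)
      (pst ((c.S0 : ℝ) / V6) ((c.S1 : ℝ) / V6) S)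
      (pst (((0 : ℕ) : ℝ) / V6) ((c.nb : ℝ) / V6) n) r := by
  have n0 : ((0 : ℕ) : ℝ) / V6 ≤ n := by simpa using h.n0
  exact bw8_nonneg (pst_nonneg h.s0 h.s1) (pst_le h.s0 h.s1)
    (pst_nonneg h.S0 h.S1) (pst_le h.S0 h.S1) (pst_nonneg n0 h.n1) (pst_le n0 h.n1)

theorem InB.sx : ∀ r, 0 ≤ sx3 (nj / ((c.wj : ℝ) / V6)) (nl / ((c.wl : ℝ) / V6)) r := by
  obtain ⟨a, b⟩ := h.pos
  exact sx3_nonneg (div_nonneg h.j0 a.le) (div_nonneg h.l0 b.le) h.w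

theorem CB.lam_nonneg (b0 : 0 ≤ β) (b1 : β ≤ 1) : ∀ r, 0 ≤ c.lam s S n nj nl β r :=
  pw_nonneg (pw_nonneg h.bw (bt2_nonneg b0 b1)) h.sx

/-- **the means of the rows of a cell** -/
theorem cell48 : mn 48 (c.lam s S n nj nl β) c.rs RN.s = s ∧
    mn 48 (c.lam s S n nj nl β) c.rs RN.Sk = S ∧
    mn 48 (c.lam s S n nj nl β) c.rs RN.Sj = qq c.Sj ∧
    mn 48 (c.lam s S n nj nl β) c.rs RN.Sl = qq c.Sl ∧
    mn 48 (c.lam s S n nj nl β) c.rs RN.nk = n ∧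
    mn 48 (c.lam s S n nj nl β) c.rs RN.nj = nj ∧
    mn 48 (c.lam s S n nj nl β) c.rs RN.nl = nl ∧
    mn 48 (c.lam s S n nj nl β) c.rs RN.b = β := by
  have hV := V6_pos
  have eV : (V6 : ℝ) = 1000000 := by
    unfold V6
    norm_num
  have n0 : ((0 : ℕ) : ℝ) / V6 ≤ n := by simpa using h.n0
  obtain ⟨wj, wl⟩ := h.pos
  have g : ∀ f : RN → ℕ, mn 48 (c.lam s S n nj nl β) c.rs f =
      ∑ r ∈ range 48, c.lam s S n nj nl β r * qq (f (c.row r)) := by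
    intro f
    unfold mn
    refine sum_congr rfl fun r hr => ?_
    rw [c.rs_get (mem_range.1 hr)]
  have q : ∀ m : ℕ, (qq m : ℝ) = (m : ℝ) / V6 := fun m => by
    unfold qq
    rw [eV]
  have ep := pst_eq h.s0 h.s1
  have eq' := pst_eq h.S0 h.S1
  have eu := pst_eq n0 h.n1
  simp only [g]
  refine ⟨?_, ?_, ?_, ?_, ?_, ?_, ?_, ?_⟩
  · have k := CB.lam_i c s S n nj nl β (fun i => (qq (vx0 c.s0 c.s1 i) : ℝ))
    refine k.trans ?_
    rw [bw8_sum]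
    simp only [q, vx0]
    norm_num
    linarith
  · have k := CB.lam_i c s S n nj nl β (fun i => (qq (vx1 c.S0 c.S1 i) : ℝ))
    refine k.trans ?_
    rw [bw8_sum]
    simp only [q, vx1]
    norm_num
    linarith
  · exact c.lam_const s S n nj nl β _
  · exact c.lam_const s S n nj nl β _
  · have k := CB.lam_i c s S n nj nl β (fun i => (qq (vx2 0 c.nb i) : ℝ))
    refine k.trans ?_
    rw [bw8_sum]
    simp only [q, vx2]
    norm_num at eu ⊢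
    linarith
  · have k := CB.lam_sum c s S n nj nl β (fun _ _ d => (qq (vj c.wj d) : ℝ))
    refine k.trans ?_
    simp only [← sum_mul, bw8_one, bt2_one, one_mul]
    rw [sx3_sum]
    simp only [q, vj]
    norm_num
    have := div_mul_cancel₀ nj wj.ne'
    linarith
  · have k := CB.lam_sum c s S n nj nl β (fun _ _ d => (qq (vl c.wl d) : ℝ))
    refine k.trans ?_
    simp only [← sum_mul, bw8_one, bt2_one, one_mul]
    rw [sx3_sum]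
    simp only [q, vl]
    norm_num
    have := div_mul_cancel₀ nl wl.ne'
    linarith
  · have k := CB.lam_sum c s S n nj nl β (fun _ e _ => (qq (V6 * e) : ℝ))
    refine k.trans ?_
    simp only [← sum_mul, bw8_one, sx3_one, one_mul]
    rw [bt2_sum]
    simp only [q]
    push_cast
    field_simp
    ring

/-- the value of a formula at a point of the cell -/
theorem WF.ev_cell (G : WF) :
    ∑ d ∈ range 3, sx3 (nj / ((c.wj : ℝ) / V6)) (nl / ((c.wl : ℝ) / V6)) d *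
      ∑ i ∈ range 8, bw8 (pst ((c.s0 : ℝ) / V6) ((c.s1 : ℝ) / V6) s)
          (pst ((c.S0 : ℝ) / V6) ((c.S1 : ℝ) / V6) S)
          (pst (((0 : ℕ) : ℝ) / V6) ((c.nb : ℝ) / V6) n) i *
        G.ev ((vx0 c.s0 c.s1 i : ℝ) / V6) ((vx1 c.S0 c.S1 i : ℝ) / V6)
          ((vx2 0 c.nb i : ℝ) / V6) ((vj c.wj d : ℝ) / V6) ((vl c.wl d : ℝ) / V6) =
      G.ev s S n nj nl := by
  have n0 : ((0 : ℕ) : ℝ) / V6 ≤ n := by simpa using h.n0
  obtain ⟨wj, wl⟩ := h.pos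
  have ep := pst_eq h.s0 h.s1
  have eq' := pst_eq h.S0 h.S1
  have eu := pst_eq n0 h.n1
  have ej := div_mul_cancel₀ nj wj.ne'
  have el := div_mul_cancel₀ nl wl.ne'
  obtain ⟨p, hp⟩ : ∃ p, p = pst ((c.s0 : ℝ) / V6) ((c.s1 : ℝ) / V6) s := ⟨_, rfl⟩
  obtain ⟨q, hq⟩ : ∃ p, p = pst ((c.S0 : ℝ) / V6) ((c.S1 : ℝ) / V6) S := ⟨_, rfl⟩
  obtain ⟨u, hu⟩ : ∃ p, p = pst (((0 : ℕ) : ℝ) / V6) ((c.nb : ℝ) / V6) n := ⟨_, rfl⟩
  obtain ⟨x, hx⟩ : ∃ p, p = nj / ((c.wj : ℝ) / V6) := ⟨_, rfl⟩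
  obtain ⟨y, hy⟩ : ∃ p, p = nl / ((c.wl : ℝ) / V6) := ⟨_, rfl⟩
  rw [← hp] at ep ⊢
  rw [← hq] at eq' ⊢
  rw [← hu] at eu ⊢
  rw [← hx] at ej ⊢
  rw [← hy] at el ⊢
  simp only [bw8_sum, sx3_sum]
  simp only [vx0, vx1, vx2, vj, vl]
  norm_num
  have z : ((0 : ℕ) : ℝ) / V6 = 0 := by simp
  rw [z] at eu
  rw [← ep, ← eq', ← eu, ← ej, ← el]
  unfold WF.ev WN.ev
  ring

end

/-! ### The cost of a corner -/

/-- check of the row weights `w` (units `U⁻⁴ / 4`) of a cell against two formulas -/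
def CB.wck (c : CB) (G0 G1 : WF) (w : ℕ → ℕ) : Bool :=
  (List.range 24).all fun r =>
    G0.ge (w (16 * (r / 8) + r % 8)) (vx0 c.s0 c.s1 (r % 8)) (vx1 c.S0 c.S1 (r % 8))
      (vx2 0 c.nb (r % 8)) (vj c.wj (r / 8)) (vl c.wl (r / 8)) &&
    G1.ge (w (16 * (r / 8) + 8 + r % 8)) (vx0 c.s0 c.s1 (r % 8)) (vx1 c.S0 c.S1 (r % 8))
      (vx2 0 c.nb (r % 8)) (vj c.wj (r / 8)) (vl c.wl (r / 8))

/-- **the cost of a corner by two formulas** -/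
theorem cost48 {c : CB} {G0 G1 : WF} {w : ℕ → ℕ} (hw : c.wck G0 G1 w = true)
    {s S n nj nl β : ℝ} (h : InB c s S n nj nl) (b0 : 0 ≤ β) (b1 : β ≤ 1) :
    ∑ r ∈ range 48, c.lam s S n nj nl β r * ((w r : ℝ) / (4 * (V6 : ℝ) ^ 4)) ≤
      (1 - β) * G0.ev s S n nj nl + β * G1.ev s S n nj nl := by
  have hck : ∀ i d : ℕ, i < 8 → d < 3 →
      G0.ge (w (16 * d + i)) (vx0 c.s0 c.s1 i) (vx1 c.S0 c.S1 i)
        (vx2 0 c.nb i) (vj c.wj d) (vl c.wl d) = true ∧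
      G1.ge (w (16 * d + 8 + i)) (vx0 c.s0 c.s1 i) (vx1 c.S0 c.S1 i)
        (vx2 0 c.nb i) (vj c.wj d) (vl c.wl d) = true := by
    intro i d hi hd
    unfold CB.wck at hw
    have k := List.all_eq_true.1 hw (8 * d + i) (List.mem_range.2 (by omega))
    have a1 : (8 * d + i) % 8 = i := by omega
    have a2 : (8 * d + i) / 8 = d := by omega
    rw [a1, a2, Bool.and_eq_true] at k
    exact k
  have hb2 := bt2_nonneg b0 b1
  -- the row number as a function of the three indices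
  have e1 : ∀ r ∈ range 48, c.lam s S n nj nl β r * ((w r : ℝ) / (4 * (V6 : ℝ) ^ 4)) =
      c.lam s S n nj nl β r * (fun i e d : ℕ => ((w (16 * d + (8 * e + i)) : ℝ) /
        (4 * (V6 : ℝ) ^ 4))) (r % 16 % 8) (r % 16 / 8) (r / 16) := by
    intro r _
    have e2 : 16 * (r / 16) + (8 * (r % 16 / 8) + r % 16 % 8) = r := by omega
    dsimp only
    rw [e2]
  rw [sum_congr rfl e1]
  have k := CB.lam_sum c s S n nj nl β (fun i e d : ℕ => ((w (16 * d + (8 * e + i)) : ℝ) /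
        (4 * (V6 : ℝ) ^ 4)))
  rw [k]
  have step : ∀ d ∈ range 3, sx3 (nj / ((c.wj : ℝ) / V6)) (nl / ((c.wl : ℝ) / V6)) d *
      ∑ e ∈ range 2, bt2 β e *
        ∑ i ∈ range 8, bw8 (pst ((c.s0 : ℝ) / V6) ((c.s1 : ℝ) / V6) s)
          (pst ((c.S0 : ℝ) / V6) ((c.S1 : ℝ) / V6) S)
          (pst (((0 : ℕ) : ℝ) / V6) ((c.nb : ℝ) / V6) n) i *
          ((w (16 * d + (8 * e + i)) : ℝ) / (4 * (V6 : ℝ) ^ 4)) ≤
      (1 - β) * (sx3 (nj / ((c.wj : ℝ) / V6)) (nl / ((c.wl : ℝ) / V6)) d *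
        ∑ i ∈ range 8, bw8 (pst ((c.s0 : ℝ) / V6) ((c.s1 : ℝ) / V6) s)
          (pst ((c.S0 : ℝ) / V6) ((c.S1 : ℝ) / V6) S)
          (pst (((0 : ℕ) : ℝ) / V6) ((c.nb : ℝ) / V6) n) i *
        G0.ev ((vx0 c.s0 c.s1 i : ℝ) / V6) ((vx1 c.S0 c.S1 i : ℝ) / V6)
          ((vx2 0 c.nb i : ℝ) / V6) ((vj c.wj d : ℝ) / V6) ((vl c.wl d : ℝ) / V6))
      + β * (sx3 (nj / ((c.wj : ℝ) / V6)) (nl / ((c.wl : ℝ) / V6)) d *
        ∑ i ∈ range 8, bw8 (pst ((c.s0 : ℝ) / V6) ((c.s1 : ℝ) / V6) s)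
          (pst ((c.S0 : ℝ) / V6) ((c.S1 : ℝ) / V6) S)
          (pst (((0 : ℕ) : ℝ) / V6) ((c.nb : ℝ) / V6) n) i *
        G1.ev ((vx0 c.s0 c.s1 i : ℝ) / V6) ((vx1 c.S0 c.S1 i : ℝ) / V6)
          ((vx2 0 c.nb i : ℝ) / V6) ((vj c.wj d : ℝ) / V6) ((vl c.wl d : ℝ) / V6)) := by
    intro d hd
    have hd' := mem_range.1 hd
    rw [bt2_sum]
    have hs := h.sx d
    have q0 : ∑ i ∈ range 8, bw8 (pst ((c.s0 : ℝ) / V6) ((c.s1 : ℝ) / V6) s)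
          (pst ((c.S0 : ℝ) / V6) ((c.S1 : ℝ) / V6) S)
          (pst (((0 : ℕ) : ℝ) / V6) ((c.nb : ℝ) / V6) n) i *
          ((w (16 * d + (8 * 0 + i)) : ℝ) / (4 * (V6 : ℝ) ^ 4)) ≤
        ∑ i ∈ range 8, bw8 (pst ((c.s0 : ℝ) / V6) ((c.s1 : ℝ) / V6) s)
          (pst ((c.S0 : ℝ) / V6) ((c.S1 : ℝ) / V6) S)
          (pst (((0 : ℕ) : ℝ) / V6) ((c.nb : ℝ) / V6) n) i *
        G0.ev ((vx0 c.s0 c.s1 i : ℝ) / V6) ((vx1 c.S0 c.S1 i : ℝ) / V6)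
          ((vx2 0 c.nb i : ℝ) / V6) ((vj c.wj d : ℝ) / V6) ((vl c.wl d : ℝ) / V6) := by
      refine sum_le_sum fun i hi => mul_le_mul_of_nonneg_left ?_ (h.bw i)
      have k := (hck i d (mem_range.1 hi) hd').1
      rw [Nat.mul_zero, Nat.zero_add]
      exact WF.ge_ev k
    have q1 : ∑ i ∈ range 8, bw8 (pst ((c.s0 : ℝ) / V6) ((c.s1 : ℝ) / V6) s)
          (pst ((c.S0 : ℝ) / V6) ((c.S1 : ℝ) / V6) S)
          (pst (((0 : ℕ) : ℝ) / V6) ((c.nb : ℝ) / V6) n) i *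
          ((w (16 * d + (8 * 1 + i)) : ℝ) / (4 * (V6 : ℝ) ^ 4)) ≤
        ∑ i ∈ range 8, bw8 (pst ((c.s0 : ℝ) / V6) ((c.s1 : ℝ) / V6) s)
          (pst ((c.S0 : ℝ) / V6) ((c.S1 : ℝ) / V6) S)
          (pst (((0 : ℕ) : ℝ) / V6) ((c.nb : ℝ) / V6) n) i *
        G1.ev ((vx0 c.s0 c.s1 i : ℝ) / V6) ((vx1 c.S0 c.S1 i : ℝ) / V6)
          ((vx2 0 c.nb i : ℝ) / V6) ((vj c.wj d : ℝ) / V6) ((vl c.wl d : ℝ) / V6) := by
      refine sum_le_sum fun i hi => mul_le_mul_of_nonneg_left ?_ (h.bw i)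
      have k := (hck i d (mem_range.1 hi) hd').2
      rw [Nat.mul_one, ← Nat.add_assoc]
      exact WF.ge_ev k
    have r0 := mul_le_mul_of_nonneg_left q0 (sub_nonneg.2 b1)
    have r1 := mul_le_mul_of_nonneg_left q1 b0
    have r2 := mul_le_mul_of_nonneg_left (add_le_add r0 r1) hs
    refine r2.trans (le_of_eq ?_)
    ring
  refine (sum_le_sum step).trans (le_of_eq ?_)
  rw [sum_add_distrib, ← mul_sum, ← mul_sum, WF.ev_cell h G0, WF.ev_cell h G1]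

end Helper29.MEI
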