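import Pool.Agent.Helper29.MEI.CellD
import Pool.Agent.Helper14.MEI4.ZH

/-!
# Project MEI (M2), w-term: from the formulas of the cells to the cost of a face

Every corner `k` has SOME pair of formulas `G0`, `G1` (those of the cell which contains its state)
which are bounded at the vertices `g` of the state space and the corners `r` of the box of the
three leaks by the numbers `e g r q k` and `e g r q k + d g r q k` (units `10⁻¹⁰`), `q` = class of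
the position of the apex. Then the cost of the face is at most `Σ lam g (A g + Σ B g k n k)`.
-/

set_option autoImplicit false

namespace Helper29.MEI

open Helper93.MEI Helper78.MEI Helper80.CW Helper14.CW Pool.Agent.Helper52.MEI Helper14.MEI4
open Helper60.R7 (jj ll)

/-! ### Formulas and convex combinations -/

theorem WN.comb {ι : Type*} (I : Finset ι) {w : ι → ℝ} (hw : ∑ g ∈ I, w g = 1) (F : WN)
    (x y : ι → ℝ) (n nj nl : ℝ) : ∑ g ∈ I, w g * F.ev (x g) (y g) n nj nl =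
      F.ev (∑ g ∈ I, w g * x g) (∑ g ∈ I, w g * y g) n nj nl := by
  unfold WN.ev
  have e : ∀ g, w g * ((F.o : ℝ) / (V6 : ℝ) ^ 2 + (F.s : ℝ) / V6 * x g + (F.S : ℝ) / V6 * y g
    + n * ((F.n : ℝ) / V6 + (F.sn : ℝ) / V6 * x g + (F.Sn : ℝ) / V6 * y g)
    + nj * ((F.j : ℝ) / V6 + (F.sj : ℝ) / V6 * x g + (F.Sj : ℝ) / V6 * y g)
    + nl * ((F.l : ℝ) / V6 + (F.sl : ℝ) / V6 * x g + (F.Sl : ℝ) / V6 * y g)) =
      ((F.o : ℝ) / (V6 : ℝ) ^ 2 + n * ((F.n : ℝ) / V6) + nj * ((F.j : ℝ) / V6)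
        + nl * ((F.l : ℝ) / V6)) * w g
      + ((F.s : ℝ) / V6 + n * ((F.sn : ℝ) / V6) + nj * ((F.sj : ℝ) / V6)
        + nl * ((F.sl : ℝ) / V6)) * (w g * x g)
      + ((F.S : ℝ) / V6 + n * ((F.Sn : ℝ) / V6) + nj * ((F.Sj : ℝ) / V6)
        + nl * ((F.Sl : ℝ) / V6)) * (w g * y g) := fun g => by ring
  simp only [e, Finset.sum_add_distrib, ← Finset.mul_sum, hw]
  ring

theorem WN.combn {ι : Type*} (I : Finset ι) {w : ι → ℝ} (hw : ∑ g ∈ I, w g = 1) (F : WN)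
    (s S : ℝ) (x y z : ι → ℝ) : ∑ g ∈ I, w g * F.ev s S (x g) (y g) (z g) =
      F.ev s S (∑ g ∈ I, w g * x g) (∑ g ∈ I, w g * y g) (∑ g ∈ I, w g * z g) := by
  unfold WN.ev
  have e : ∀ g, w g * ((F.o : ℝ) / (V6 : ℝ) ^ 2 + (F.s : ℝ) / V6 * s + (F.S : ℝ) / V6 * S
    + x g * ((F.n : ℝ) / V6 + (F.sn : ℝ) / V6 * s + (F.Sn : ℝ) / V6 * S)
    + y g * ((F.j : ℝ) / V6 + (F.sj : ℝ) / V6 * s + (F.Sj : ℝ) / V6 * S)
    + z g * ((F.l : ℝ) / V6 + (F.sl : ℝ) / V6 * s + (F.Sl : ℝ) / V6 * S)) =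
      ((F.o : ℝ) / (V6 : ℝ) ^ 2 + (F.s : ℝ) / V6 * s + (F.S : ℝ) / V6 * S) * w g
      + ((F.n : ℝ) / V6 + (F.sn : ℝ) / V6 * s + (F.Sn : ℝ) / V6 * S) * (w g * x g)
      + ((F.j : ℝ) / V6 + (F.sj : ℝ) / V6 * s + (F.Sj : ℝ) / V6 * S) * (w g * y g)
      + ((F.l : ℝ) / V6 + (F.sl : ℝ) / V6 * s + (F.Sl : ℝ) / V6 * S) * (w g * z g) :=
    fun g => by ring
  simp only [e, Finset.sum_add_distrib, ← Finset.mul_sum, hw]
  ring

theorem WF.comb {ι : Type*} (I : Finset ι) {w : ι → ℝ} (hw : ∑ g ∈ I, w g = 1) (F : WF)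
    (x y : ι → ℝ) (n nj nl : ℝ) : ∑ g ∈ I, w g * F.ev (x g) (y g) n nj nl =
      F.ev (∑ g ∈ I, w g * x g) (∑ g ∈ I, w g * y g) n nj nl := by
  unfold WF.ev
  simp only [mul_sub, Finset.sum_sub_distrib, WN.comb I hw]

theorem WF.combn {ι : Type*} (I : Finset ι) {w : ι → ℝ} (hw : ∑ g ∈ I, w g = 1) (F : WF)
    (s S : ℝ) (x y z : ι → ℝ) : ∑ g ∈ I, w g * F.ev s S (x g) (y g) (z g) =
      F.ev s S (∑ g ∈ I, w g * x g) (∑ g ∈ I, w g * y g) (∑ g ∈ I, w g * z g) := by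
  unfold WF.ev
  simp only [mul_sub, Finset.sum_sub_distrib, WN.combn I hw]

/-! ### The cost of a face -/

/-- the leaks at the corners of the box have the mean `n` -/
theorem wbx_mean1 {tt : Fin 3 → ℕ} {n : Fin 3 → ℝ} (hn0 : ∀ k, 0 ≤ n k)
    (hn : ∀ k, n k ≤ (tt k : ℝ) / 1000000) (k : Fin 3) :
    ∑ r ∈ Finset.range 8, wbx tt n r * ((vxk tt k r : ℝ) / V6) = n k := by
  have eV : (V6 : ℝ) = 1000000 := by
    norm_num [V6]
  rw [eV]
  have key : k = 0 ∨ k = 1 ∨ k = 2 := by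
    fin_cases k <;> simp
  rcases key with rfl | rfl | rfl
  · have h := wbx_mean (tt := tt) hn0 hn 0 1 0 0 0 0 0 0
    simpa using h
  · have h := wbx_mean (tt := tt) hn0 hn 0 0 1 0 0 0 0 0
    simpa using h
  · have h := wbx_mean (tt := tt) hn0 hn 0 0 0 1 0 0 0 0
    simpa using h

/-- **a formula at a state is at most the combination of its numbers at the vertices** -/
theorem WF.le_comb {ι : Type*} {I : Finset ι} {lam : ι → ℝ} (hl : ∀ g ∈ I, 0 ≤ lam g)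
    (h1 : ∑ g ∈ I, lam g = 1) {sv Sv : ι → ℕ} {s S : ℝ} {n : Fin 3 → ℝ}
    (hsv : s = ∑ g ∈ I, lam g * ((sv g : ℝ) / V6)) (hSv : S = ∑ g ∈ I, lam g * ((Sv g : ℝ) / V6))
    {tt : Fin 3 → ℕ} (hn0 : ∀ k, 0 ≤ n k) (hn : ∀ k, n k ≤ (tt k : ℝ) / 1000000) {G : WF}
    {t : ι → ℕ → ℕ} (k j l : Fin 3) (h : ∀ g ∈ I, ∀ r < 8, G.le (t g r) (sv g) (Sv g)
      (vxk tt k r) (vxk tt j r) (vxk tt l r) = true) :
    G.ev s S (n k) (n j) (n l) ≤
      ∑ g ∈ I, ∑ r ∈ Finset.range 8, lam g * wbx tt n r * ((t g r : ℝ) / (V6 : ℝ) ^ 4) := by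
  have b1 : ∑ r ∈ Finset.range 8, wbx tt n r = 1 := bw8_one _ _ _
  have e1 : G.ev s S (n k) (n j) (n l) = ∑ g ∈ I, lam g * ∑ r ∈ Finset.range 8, wbx tt n r *
      G.ev ((sv g : ℝ) / V6) ((Sv g : ℝ) / V6) ((vxk tt k r : ℝ) / V6) ((vxk tt j r : ℝ) / V6)
        ((vxk tt l r : ℝ) / V6) := by
    have e2 : ∀ g ∈ I, lam g * ∑ r ∈ Finset.range 8, wbx tt n r *
      G.ev ((sv g : ℝ) / V6) ((Sv g : ℝ) / V6) ((vxk tt k r : ℝ) / V6) ((vxk tt j r : ℝ) / V6)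
        ((vxk tt l r : ℝ) / V6) = lam g * G.ev ((sv g : ℝ) / V6) ((Sv g : ℝ) / V6)
          (n k) (n j) (n l) := by
      intro g _
      rw [WF.combn (Finset.range 8) b1 G, wbx_mean1 hn0 hn k, wbx_mean1 hn0 hn j,
        wbx_mean1 hn0 hn l]
    rw [Finset.sum_congr rfl e2, WF.comb I h1 G, ← hsv, ← hSv]
  rw [e1]
  refine Finset.sum_le_sum fun g hg => ?_
  rw [Finset.mul_sum]
  refine Finset.sum_le_sum fun r hr => ?_
  have hk := mul_le_mul_of_nonneg_left (WF.le_ev (h g hg r (Finset.mem_range.1 hr)))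
    (mul_nonneg (hl g hg) (wbx_nonneg hn0 hn r))
  rw [← mul_assoc]
  exact hk

/-- the two formulas of a corner are bounded at a vertex of the state space and a corner of the
box of the leaks by `e` and `e + d` (units `10⁻¹⁰`) -/
def WF.vck (G0 G1 : WF) (e d s S n nj nl : ℕ) : Bool :=
  G0.le (100000000000000 * e) s S n nj nl && G1.le (100000000000000 * (e + d)) s S n nj nl

/-- **the cost of a face from the formulas of the cells** -/
theorem zcell {a : Fin 4 → E3} (hg : Gram4 (al a)) {x : E3} (hx : Pl a x) {X : ℕ} {c s' : ℝ}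
    (hq : Qv a 0 x ≤ s') (hc0 : 0 ≤ c) (hc : c ≤ 2 / 5) (hs' : s' * 1000000 ≤ X) (hs0 : 0 ≤ s')
    {L : List ℕ} {κ : Fin 3 → ℕ} (hκ : ∀ k, Cel (pcor a x k) (κ k) 0 0 L)
    {ι : Type*} (I : Finset ι) {lam : ι → ℝ} (hl : ∀ g ∈ I, 0 ≤ lam g)
    (h1 : ∑ g ∈ I, lam g = 1) {sv : ι → ℕ} {Sv : ι → Fin 3 → ℕ} {s : ℝ} {S n : Fin 3 → ℝ}
    (hsv : s = ∑ g ∈ I, lam g * ((sv g : ℝ) / V6))
    (hSv : ∀ k, S k = ∑ g ∈ I, lam g * ((Sv g k : ℝ) / V6))
    {tt : Fin 3 → ℕ} (hn0 : ∀ k, 0 ≤ n k) (hn : ∀ k, n k ≤ (tt k : ℝ) / 1000000)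
    {e d : ι → ℕ → ℕ → Fin 3 → ℕ} {em : ι → ℕ → Fin 3 → ℕ}
    {V : ι → ℕ → ℕ} {A : ι → ℕ} {B : ι → Fin 3 → ℕ} {Tr : ι → ℕ → ZT}
    (hck : ∀ g ∈ I, ∀ r < 8, zfck L.length tt (e g r) (em g r) (V g r) (A g) (B g) r = true)
    (hz : ∀ g ∈ I, ∀ r < 8, zchk2 X (V g r) (tabL2 0 L (fun q => e g r q 0) fun q => d g r q 0)
      (tabL2 0 L (fun q => e g r q 1) fun q => d g r q 1)
      (tabL2 0 L (fun q => e g r q 2) fun q => d g r q 2) (Tr g r)
      0 0 0 1000000 1000000 1000000 = true)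
    {T W : Fin 3 → ℝ}
    (hF : ∀ k, ∃ G0 G1 : WF, (∀ g ∈ I, ∀ r < 8, WF.vck G0 G1 (e g r (κ k) k) (d g r (κ k) k)
      (sv g) (Sv g k) (vxk tt k r) (vxk tt (jj k) r) (vxk tt (ll k) r) = true) ∧
      T k ≤ G0.ev s (S k) (n k) (n (jj k)) (n (ll k)) ∧
      W k ≤ G1.ev s (S k) (n k) (n (jj k)) (n (ll k))) :
    (√2)⁻¹ * (((1 - bcor a c x 0) * T 0 + bcor a c x 0 * W 0)
      + ((1 - bcor a c x 1) * T 1 + bcor a c x 1 * W 1)
      + ((1 - bcor a c x 2) * T 2 + bcor a c x 2 * W 2)) ≤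
      ∑ g ∈ I, lam g * ((A g : ℝ) / 1000000000000 + (B g 0 : ℝ) / 1000000000 * n 0
        + (B g 1 : ℝ) / 1000000000 * n 1 + (B g 2 : ℝ) / 1000000000 * n 2) := by
  have eV : (V6 : ℝ) = 1000000 := by
    norm_num [V6]
  refine zlin3 hg hx hq hc0 hc hs' hs0 hκ I hl hn0 hn hck hz (fun k => ?_) fun k => ?_
  · obtain ⟨G0, G1, hv, hT, _⟩ := hF k
    refine hT.trans ?_
    refine (WF.le_comb hl h1 hsv (hSv k) hn0 hn
      (t := fun g r => 100000000000000 * e g r (κ k) k) k (jj k) (ll k)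
      fun g hg' r hr => ?_).trans (le_of_eq ?_)
    · have h := hv g hg' r hr
      unfold WF.vck at h
      rw [Bool.and_eq_true] at h
      exact h.1
    · refine Finset.sum_congr rfl fun g _ => Finset.sum_congr rfl fun r _ => ?_
      rw [eV]
      push_cast
      ring
  · obtain ⟨G0, G1, hv, _, hW⟩ := hF k
    refine hW.trans ?_
    refine (WF.le_comb hl h1 hsv (hSv k) hn0 hn
      (t := fun g r => 100000000000000 * (e g r (κ k) k + d g r (κ k) k)) k (jj k) (ll k)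
      fun g hg' r hr => ?_).trans (le_of_eq ?_)
    · have h := hv g hg' r hr
      unfold WF.vck at h
      rw [Bool.and_eq_true] at h
      exact h.2
    · refine Finset.sum_congr rfl fun g _ => Finset.sum_congr rfl fun r _ => ?_
      rw [eV]
      push_cast
      ring

end Helper29.MEI
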