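import Pool.Agent.Helper78.MEI.GArith

/-!
# Project MEI, all bodies, regime I: the arithmetic end lemma with shifted losses

(row S6 of h29_reg1.md)
-/

namespace Helper29.MEI

open Helper78.MEI

/-- The two point inequality with shifts `k`, `k'`. -/
theorem G_shift {c δ κ v a b k k' : ℝ} (hc : 0 < c) (hδ : δ < κ) (hκ : 0 ≤ κ)
    (hd : (2 * κ - δ) ^ 2 < 4 * c * (κ - δ) * v) (hb : 0 ≤ b) (hba : b ≤ a) (hav : a ≤ v)
    (hk : 0 ≤ k) (hk' : 0 ≤ k') :
    0 ≤ c * max (a - k) 0 * max (b - k') 0 + (κ - δ) * (v - a) - κ * b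
      + (2 * κ - δ) * max k k' := by
  have m1 : k ≤ max k k' := le_max_left _ _
  have m2 : k' ≤ max k k' := le_max_right _ _
  have hm : 0 ≤ max k k' := hk.trans m1
  have h1 : 0 ≤ (κ - δ) * (v - a) := mul_nonneg (by linarith) (by linarith)
  have h2 : 0 ≤ (κ - δ) * max k k' := mul_nonneg (by linarith) hm
  have h3 : 0 ≤ c * max (a - k) 0 * max (b - k') 0 :=
    mul_nonneg (mul_nonneg hc.le (le_max_right _ _)) (le_max_right _ _)
  rcases le_total b k' with hb1 | hb1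
  · have h4 : κ * b ≤ κ * max k k' := mul_le_mul_of_nonneg_left (hb1.trans m2) hκ
    nlinarith
  rcases le_total a k with ha1 | ha1
  · have h4 : κ * b ≤ κ * max k k' := mul_le_mul_of_nonneg_left ((hba.trans ha1).trans m1) hκ
    nlinarith
  rw [max_eq_left (by linarith : (0 : ℝ) ≤ a - k), max_eq_left (by linarith : (0 : ℝ) ≤ b - k')]
  rcases le_total (b - k') (a - k) with hab | hab
  · have h4 := (G_gen (a := a - k) (b := b - k') hc hδ hd (by linarith) hab (by linarith)).1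
    have h5 : (κ - δ) * k ≤ (κ - δ) * max k k' := mul_le_mul_of_nonneg_left m1 (by linarith)
    have h6 : κ * k' ≤ κ * max k k' := mul_le_mul_of_nonneg_left m2 hκ
    nlinarith
  · have h4 := (G_gen (a := a - k) (b := a - k) hc hδ hd (by linarith) le_rfl (by linarith)).1
    have h5 : (κ - δ) * k ≤ (κ - δ) * max k k' := mul_le_mul_of_nonneg_left m1 (by linarith)
    have h6 : κ * (b - a + k) ≤ κ * max k k' := mul_le_mul_of_nonneg_left (by linarith) hκ
    have h7 : c * (a - k) * (a - k) ≤ c * (a - k) * (b - k') :=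
      mul_le_mul_of_nonneg_left hab (mul_nonneg hc.le (by linarith))
    nlinarith

/-- One pair of opposite edges with shifted losses. -/
theorem pair_le_shift {c m M κ v l l' X T N k k' : ℝ} (hc : 0 < c) (hδ : M - m < κ) (hκ : 0 ≤ κ)
    (hd : (2 * κ - (M - m)) ^ 2 < 4 * c * (κ - (M - m)) * v)
    (hl : 0 ≤ l) (hl' : 0 ≤ l') (hlv : l ≤ v) (hlv' : l' ≤ v) (hk : 0 ≤ k) (hk' : 0 ≤ k')
    (hX1 : X ≤ -(m * l) + M * (v - l')) (hX2 : X ≤ -(m * l') + M * (v - l))
    (hT : c * (max (l - k) 0 * max (l' - k') 0) - N ≤ T) :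
    X ≤ (m + κ) * (v - l - l') + T + (N + (2 * κ - (M - m)) * max k k') := by
  rcases le_total l l' with h | h
  · have h1 := G_shift (a := l') (b := l) (k := k') (k' := k) hc hδ hκ hd hl h hlv' hk' hk
    rw [max_comm k' k] at h1
    nlinarith
  · have h1 := G_shift (a := l) (b := l') (k := k) (k' := k') hc hδ hκ hd hl' h hlv hk hk'
    nlinarith

/-- Constants of regime I: `c = 900`, `m = 4.32`, `M - m = .26`, `κ = .4`. -/
theorem pair_reg1 {v l l' X T N k k' : ℝ} (hv : 6e-4 ≤ v)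
    (hl : 0 ≤ l) (hl' : 0 ≤ l') (hlv : l ≤ v) (hlv' : l' ≤ v) (hk : 0 ≤ k) (hk' : 0 ≤ k')
    (hX1 : X ≤ -(4.32 * l) + 4.58 * (v - l')) (hX2 : X ≤ -(4.32 * l') + 4.58 * (v - l))
    (hT : 900 * (max (l - k) 0 * max (l' - k') 0) - N ≤ T) :
    X ≤ 4.72 * (v - l - l') + T + (N + 0.54 * max k k') := by
  have h := pair_le_shift (c := 900) (m := 4.32) (M := 4.58) (κ := 0.4) (by norm_num)
    (by norm_num) (by norm_num) (by nlinarith) hl hl' hlv hlv' hk hk' hX1 hX2 hT
  have e1 : (4.32 + 0.4 : ℝ) = 4.72 := by norm_num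
  have e2 : (2 * 0.4 - (4.58 - 4.32) : ℝ) = 0.54 := by norm_num
  rwa [e1, e2] at h

end Helper29.MEI
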