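import Pool.Agent.Helper29.MEI.Tent2

/-!
# Project MEI, all bodies: the tent lemma

`D` = the triangle in the coordinates `(t.1, t.2)` (third barycentric coordinate `1 - t.1 - t.2`);
the integral over the directions of a regular tetrahedron corner of a function `Λ` is
`(1/√2) ∫_D Λ m^(-3/2)`, `m = 1 - e2`; on the unit sphere `b_k = t_k / √m`.
-/

namespace Helper29.MEI

open Set MeasureTheory Filter Topology
open scoped ENNReal

/-- the triangle -/
def TD : Set (ℝ × ℝ) := {t | 0 ≤ t.1 ∧ 0 ≤ t.2 ∧ t.1 + t.2 ≤ 1}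

theorem TD_closed : IsClosed TD := by
  have h1 : IsClosed {t : ℝ × ℝ | 0 ≤ t.1} := isClosed_le continuous_const continuous_fst
  have h2 : IsClosed {t : ℝ × ℝ | 0 ≤ t.2} := isClosed_le continuous_const continuous_snd
  have h3 : IsClosed {t : ℝ × ℝ | t.1 + t.2 ≤ 1} :=
    isClosed_le (continuous_fst.add continuous_snd) continuous_const
  exact h1.inter (h2.inter h3)

theorem TD_meas : MeasurableSet TD := TD_closed.measurableSet

theorem TD_sub : TD ⊆ Icc 0 1 ×ˢ Icc 0 1 := by
  rintro ⟨x, y⟩ ⟨h1, h2, h3⟩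
  simp only at h1 h2 h3
  exact ⟨⟨h1, by simp only; linarith⟩, ⟨h2, by simp only; linarith⟩⟩

theorem TD_compact : IsCompact TD :=
  (isCompact_Icc.prod isCompact_Icc).of_isClosed_subset TD_closed TD_sub

theorem tent_cont (A B C : ℝ) : Continuous fun t : ℝ × ℝ => tent A B C t.1 t.2 := by
  unfold tent
  fun_prop

theorem tent_nonneg {A B C : ℝ} (hA : 0 < A) (hB : 0 < B) (hC : 0 < C) {t : ℝ × ℝ} (ht : t ∈ TD) :
    0 ≤ tent A B C t.1 t.2 := by
  obtain ⟨h1, h2, h3⟩ := ht
  exact le_min (div_nonneg h1 hA.le) (le_min (div_nonneg h2 hB.le) (div_nonneg (by linarith) hC.le))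

theorem tent_scale {A B C S : ℝ} (hA : 0 < A) (hB : 0 < B) (hC : 0 < C) (hS : 0 < S) (x y : ℝ) :
    tent A B C x y = tent (A / S) (B / S) (C / S) x y / S := by
  unfold tent
  rw [← min_div_div_right hS.le, ← min_div_div_right hS.le]
  have e : ∀ a b : ℝ, 0 < b → a / (b / S) / S = a / b := by
    intro a b hb
    field_simp
  rw [e _ _ hA, e _ _ hB, e _ _ hC]

theorem tf_cont (A B C : ℝ) :
    Continuous fun t : ℝ × ℝ => tent A B C t.1 t.2 / (1 - e2 t.1 t.2) ^ 2 := by
  apply (tent_cont A B C).div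
  · have := e2_cont
    fun_prop
  · intro t
    have := e2_le (x := t.1) (y := t.2)
    have h : 0 < 1 - e2 t.1 t.2 := by linarith
    positivity

/-- the tent lemma, apex with sum `1` -/
theorem tent_flat1 {A B C : ℝ} (hA : 0 < A) (hB : 0 < B) (hC : 0 < C) (hs : A + B + C = 1) :
    16 / 27 * (1 / 2 + 2 / 15 * e2 A B) ≤
      ∫ t in TD, tent A B C t.1 t.2 / (1 - e2 t.1 t.2) ^ 2 := by
  have hnn : 0 ≤ ∫ t in TD, tent A B C t.1 t.2 / (1 - e2 t.1 t.2) ^ 2 :=
    setIntegral_nonneg TD_meas fun t ht => div_nonneg (tent_nonneg hA hB hC ht) (sq_nonneg _)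
  rw [← ENNReal.ofReal_le_ofReal_iff hnn]
  have h1 := flat_ge hA hB hC hs
  rw [ofReal_integral_eq_lintegral_ofReal ((tf_cont A B C).continuousOn.integrableOn_compact
    TD_compact) (by
      filter_upwards [ae_restrict_mem TD_meas] with t ht using
        div_nonneg (tent_nonneg hA hB hC ht) (sq_nonneg _))]
  have hm : Measurable fun t : ℝ × ℝ =>
      ENNReal.ofReal (tent A B C t.1 t.2) * ENNReal.ofReal (1 + 8 * e2 t.1 t.2) := by
    have := e2_cont
    exact (tent_cont A B C).measurable.ennreal_ofReal.mul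
      (by fun_prop : Continuous fun t : ℝ × ℝ => 1 + 8 * e2 t.1 t.2).measurable.ennreal_ofReal
  have h2 : ∫⁻ x, ∫⁻ y, ENNReal.ofReal (tent A B C x y) * ENNReal.ofReal (1 + 8 * e2 x y) =
      ∫⁻ t : ℝ × ℝ, ENNReal.ofReal (tent A B C t.1 t.2) * ENNReal.ofReal (1 + 8 * e2 t.1 t.2) :=
    (lintegral_prod (μ := (volume : Measure ℝ)) (ν := (volume : Measure ℝ)) _
      hm.aemeasurable).symm
  rw [h2] at h1
  have h3 : ∫⁻ t : ℝ × ℝ, ENNReal.ofReal (tent A B C t.1 t.2) *
      ENNReal.ofReal (1 + 8 * e2 t.1 t.2) = ∫⁻ t in TD, ENNReal.ofReal (tent A B C t.1 t.2) *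
      ENNReal.ofReal (1 + 8 * e2 t.1 t.2) := by
    rw [← lintegral_indicator TD_meas]
    apply lintegral_congr
    intro t
    by_cases ht : t ∈ TD
    · rw [indicator_of_mem ht]
    · rw [indicator_of_notMem ht]
      have h4 : tent A B C t.1 t.2 ≤ 0 := by
        by_contra hneg
        push Not at hneg
        unfold tent at hneg
        rw [lt_min_iff, lt_min_iff] at hneg
        obtain ⟨k1, k2, k3⟩ := hneg
        have j1 : 0 < t.1 := by
          by_contra h
          push Not at h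
          exact absurd k1 (not_lt.2 (div_nonpos_of_nonpos_of_nonneg h hA.le))
        have j2 : 0 < t.2 := by
          by_contra h
          push Not at h
          exact absurd k2 (not_lt.2 (div_nonpos_of_nonpos_of_nonneg h hB.le))
        have j3 : 0 < 1 - t.1 - t.2 := by
          by_contra h
          push Not at h
          exact absurd k3 (not_lt.2 (div_nonpos_of_nonpos_of_nonneg h hC.le))
        exact ht ⟨j1.le, j2.le, by linarith⟩
      rw [ENNReal.ofReal_of_nonpos h4, zero_mul]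
  rw [h3] at h1
  rw [ENNReal.ofReal_mul (by norm_num : (0 : ℝ) ≤ 16 / 27)]
  refine (mul_le_mul_right h1 (ENNReal.ofReal (16 / 27))).trans ?_
  rw [← lintegral_const_mul _ hm]
  apply setLIntegral_mono' TD_meas
  intro t ht
  rw [mul_left_comm, ← ENNReal.ofReal_mul (by norm_num : (0 : ℝ) ≤ 16 / 27),
    ← ENNReal.ofReal_mul (tent_nonneg hA hB hC ht)]
  apply ENNReal.ofReal_le_ofReal
  have h5 := weight_ge (e2_le (x := t.1) (y := t.2))
  calc tent A B C t.1 t.2 * (16 / 27 * (1 + 8 * e2 t.1 t.2))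
      ≤ tent A B C t.1 t.2 * (1 / (1 - e2 t.1 t.2) ^ 2) :=
        mul_le_mul_of_nonneg_left h5 (tent_nonneg hA hB hC ht)
    _ = tent A B C t.1 t.2 / (1 - e2 t.1 t.2) ^ 2 := by rw [mul_one_div]

/-- **THE TENT LEMMA** (any apex) -/
theorem tent_flat {A B C : ℝ} (hA : 0 < A) (hB : 0 < B) (hC : 0 < C) :
    8 / 27 / (A + B + C) ≤ ∫ t in TD, tent A B C t.1 t.2 / (1 - e2 t.1 t.2) ^ 2 := by
  have hS : 0 < A + B + C := by positivity
  set S := A + B + C with hSd
  have h1 := tent_flat1 (A := A / S) (B := B / S) (C := C / S) (div_pos hA hS) (div_pos hB hS)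
    (div_pos hC hS) (by rw [← add_div, ← add_div, ← hSd, div_self hS.ne'])
  have h2 : 0 ≤ e2 (A / S) (B / S) := by
    apply e2_nonneg (div_pos hA hS).le (div_pos hB hS).le
    rw [← add_div, div_le_one hS]
    linarith
  have e : (∫ t in TD, tent A B C t.1 t.2 / (1 - e2 t.1 t.2) ^ 2) =
      (∫ t in TD, tent (A / S) (B / S) (C / S) t.1 t.2 / (1 - e2 t.1 t.2) ^ 2) / S := by
    rw [← integral_div]
    apply integral_congr_ae
    filter_upwards with t
    rw [tent_scale hA hB hC hS, div_right_comm]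
  rw [e, div_le_div_iff_of_pos_right hS]
  linarith

/-- the same with the factor of the solid angle: `(1/√2) ∫ ≥ .2095 / (A + B + C)` -/
theorem tent_dir {A B C : ℝ} (hA : 0 < A) (hB : 0 < B) (hC : 0 < C) :
    0.2095 / (A + B + C) ≤ 1 / √2 * ∫ t in TD, tent A B C t.1 t.2 / (1 - e2 t.1 t.2) ^ 2 := by
  have hS : 0 < A + B + C := by positivity
  have h := tent_flat hA hB hC
  have h2 : (0 : ℝ) < √2 := by positivity
  have h3 : √2 ≤ 1.41422 := by
    rw [Real.sqrt_le_left (by norm_num)]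
    norm_num
  have h4 : 0.2095 ≤ 1 / √2 * (8 / 27) := by
    rw [one_div_mul_eq_div, le_div_iff₀ h2]
    nlinarith
  calc 0.2095 / (A + B + C) ≤ 1 / √2 * (8 / 27) / (A + B + C) :=
        div_le_div_of_nonneg_right h4 hS.le
    _ = 1 / √2 * (8 / 27 / (A + B + C)) := by ring
    _ ≤ _ := mul_le_mul_of_nonneg_left h (by positivity)

end Helper29.MEI
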