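import Mathlib

/-!
# Project MEI, all bodies: the tent lemma, part 1 (integration in simplex coordinates)
-/

namespace Helper29.MEI

open Set MeasureTheory Filter Topology
open scoped ENNReal

/-- scaling on the line -/
theorem lint_scale {c : ℝ} (hc : c ≠ 0) {g : ℝ → ℝ≥0∞} (hg : Measurable g) :
    ∫⁻ x, g x = ENNReal.ofReal |c| * ∫⁻ x, g (c * x) := by
  have h1 : ∫⁻ x, g (c * x) = ∫⁻ x, g x ∂(Measure.map (fun x => c * x) volume) :=
    (lintegral_map hg (measurable_const_mul c)).symm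
  have h2 : Measure.map (fun x : ℝ => c * x) volume = ENNReal.ofReal |c⁻¹| • volume :=
    Real.map_volume_mul_left hc
  rw [h1, h2, lintegral_smul_measure, smul_eq_mul, ← mul_assoc, ← ENNReal.ofReal_mul (abs_nonneg _),
    ← abs_mul, mul_inv_cancel₀ hc, abs_one, ENNReal.ofReal_one, one_mul]

theorem swap3 {F : ℝ → ℝ → ℝ → ℝ≥0∞} (hF : Measurable fun p : ℝ × ℝ × ℝ => F p.1 p.2.1 p.2.2) :
    ∫⁻ a, ∫⁻ b, ∫⁻ c, F a b c = ∫⁻ c, ∫⁻ a, ∫⁻ b, F a b c := by
  have h1 : ∀ a, ∫⁻ b, ∫⁻ c, F a b c = ∫⁻ c, ∫⁻ b, F a b c := by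
    intro a
    apply lintegral_lintegral_swap
    apply Measurable.aemeasurable
    exact hF.comp (measurable_const.prodMk measurable_id)
  simp only [h1]
  apply lintegral_lintegral_swap
  apply Measurable.aemeasurable
  have h2 : Measurable fun q : (ℝ × ℝ) × ℝ => F q.1.1 q.2 q.1.2 := by
    have h3 : Measurable fun q : (ℝ × ℝ) × ℝ => ((q.1.1, q.2, q.1.2) : ℝ × ℝ × ℝ) := by fun_prop
    exact hF.comp h3
  exact h2.lintegral_prod_right'

/-- **simplex coordinates** -/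
theorem cone_lint {F : ℝ → ℝ → ℝ → ℝ≥0∞}
    (hF : Measurable fun p : ℝ × ℝ × ℝ => F p.1 p.2.1 p.2.2) :
    ∫⁻ a, ∫⁻ b, ∫⁻ c, F a b c =
      ∫⁻ x, ∫⁻ y, ∫⁻ τ, ENNReal.ofReal (τ ^ 2) * F (τ * x) (τ * y) (τ * (1 - x - y)) := by
  have m1 : Measurable fun p : ℝ × ℝ × ℝ => F p.1 p.2.1 (p.2.2 - p.1 - p.2.1) := by
    have h3 : Measurable fun p : ℝ × ℝ × ℝ => ((p.1, p.2.1, p.2.2 - p.1 - p.2.1) : ℝ × ℝ × ℝ) := by
      fun_prop
    exact hF.comp h3
  have m2 : Measurable fun p : ℝ × ℝ × ℝ =>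
      ENNReal.ofReal (p.2.2 ^ 2) * F (p.2.2 * p.1) (p.2.2 * p.2.1) (p.2.2 * (1 - p.1 - p.2.1)) := by
    have h3 : Measurable fun p : ℝ × ℝ × ℝ =>
        ((p.2.2 * p.1, p.2.2 * p.2.1, p.2.2 * (1 - p.1 - p.2.1)) : ℝ × ℝ × ℝ) := by
      fun_prop
    have h4 : Measurable fun p : ℝ × ℝ × ℝ => ENNReal.ofReal (p.2.2 ^ 2) := by fun_prop
    exact h4.mul (hF.comp h3)
  have e1 : ∫⁻ a, ∫⁻ b, ∫⁻ c, F a b c = ∫⁻ a, ∫⁻ b, ∫⁻ τ, F a b (τ - a - b) := by
    apply lintegral_congr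
    intro a
    apply lintegral_congr
    intro b
    have h5 := lintegral_sub_right_eq_self (μ := (volume : Measure ℝ)) (fun c => F a b c) (a + b)
    rw [← h5]
    apply lintegral_congr
    intro τ
    rw [sub_sub]
  rw [e1, swap3 (F := fun a b τ => F a b (τ - a - b)) m1]
  refine Eq.trans ?_ (swap3 (F := fun x y τ =>
    ENNReal.ofReal (τ ^ 2) * F (τ * x) (τ * y) (τ * (1 - x - y))) m2).symm
  have h0 : ∀ᵐ τ : ℝ, τ ≠ 0 := by
    rw [ae_iff]
    simp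
  apply lintegral_congr_ae
  filter_upwards [h0] with τ hτ
  have m3 : Measurable fun a => ∫⁻ b, F a b (τ - a - b) := by
    have h6 : Measurable fun q : ℝ × ℝ => F q.1 q.2 (τ - q.1 - q.2) := by
      have h7 : Measurable fun q : ℝ × ℝ => ((q.1, q.2, τ - q.1 - q.2) : ℝ × ℝ × ℝ) := by fun_prop
      exact hF.comp h7
    exact h6.lintegral_prod_right'
  rw [lint_scale hτ m3]
  have h8 : ∀ x, ∫⁻ b, F (τ * x) b (τ - τ * x - b) =
      ENNReal.ofReal |τ| * ∫⁻ y, F (τ * x) (τ * y) (τ * (1 - x - y)) := by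
    intro x
    have m4 : Measurable fun b => F (τ * x) b (τ - τ * x - b) := by
      have h7 : Measurable fun b : ℝ => ((τ * x, b, τ - τ * x - b) : ℝ × ℝ × ℝ) := by fun_prop
      exact hF.comp h7
    rw [lint_scale hτ m4]
    congr 1
    apply lintegral_congr
    intro y
    congr 1
    ring
  simp only [h8]
  have m5 : Measurable fun x => ∫⁻ y, F (τ * x) (τ * y) (τ * (1 - x - y)) := by
    have h6 : Measurable fun q : ℝ × ℝ => F (τ * q.1) (τ * q.2) (τ * (1 - q.1 - q.2)) := by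
      have h7 : Measurable fun q : ℝ × ℝ =>
          ((τ * q.1, τ * q.2, τ * (1 - q.1 - q.2)) : ℝ × ℝ × ℝ) := by fun_prop
      exact hF.comp h7
    exact h6.lintegral_prod_right'
  rw [lintegral_const_mul _ m5, ← mul_assoc, ← ENNReal.ofReal_mul (abs_nonneg _), abs_mul_abs_self]
  have h9 : ∀ x, ∫⁻ y, ENNReal.ofReal (τ ^ 2) * F (τ * x) (τ * y) (τ * (1 - x - y)) =
      ENNReal.ofReal (τ ^ 2) * ∫⁻ y, F (τ * x) (τ * y) (τ * (1 - x - y)) := by
    intro x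
    apply lintegral_const_mul
    have h7 : Measurable fun y : ℝ =>
        ((τ * x, τ * y, τ * (1 - x - y)) : ℝ × ℝ × ℝ) := by fun_prop
    exact hF.comp h7
  simp only [h9]
  rw [lintegral_const_mul _ m5, sq]

end Helper29.MEI
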