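import Pool.Agent.Helper29.MEI.Tent1

/-!
# Project MEI, all bodies: the tent lemma, part 2 (the flat triangle)
-/

namespace Helper29.MEI

open Set MeasureTheory Filter Topology
open scoped ENNReal

/-- second elementary symmetric polynomial in barycentric coordinates `(x, y, 1 - x - y)` -/
def e2 (x y : ℝ) : ℝ := x * y + (x + y) * (1 - x - y)

/-- tent with apex proportional to `(A, B, C)` -/
noncomputable def tent (A B C x y : ℝ) : ℝ := min (x / A) (min (y / B) ((1 - x - y) / C))

theorem lint_poly {p : ℝ → ℝ} (hp : Continuous p) {m : ℝ} (hm : 0 ≤ m)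
    (h0 : ∀ y, 0 < y → y < m → 0 ≤ p y) :
    ENNReal.ofReal (∫ y in (0 : ℝ)..m, p y) =
      ∫⁻ y, (if 0 < y ∧ y < m then ENNReal.ofReal (p y) else 0) := by
  rw [intervalIntegral.integral_of_le hm, integral_Ioc_eq_integral_Ioo,
    ofReal_integral_eq_lintegral_ofReal]
  · rw [← lintegral_indicator measurableSet_Ioo]
    apply lintegral_congr
    intro y
    by_cases hy : 0 < y ∧ y < m
    · rw [if_pos hy, indicator_of_mem (show y ∈ Ioo 0 m from hy)]
    · rw [if_neg hy, indicator_of_notMem (show y ∉ Ioo 0 m from hy)]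
  · exact (hp.integrableOn_Icc (a := 0) (b := m)).mono_set Ioo_subset_Icc_self
  · filter_upwards [ae_restrict_mem measurableSet_Ioo] with y hy using h0 y hy.1 hy.2

theorem int_cubic (c1 c2 c3 m : ℝ) :
    ∫ y in (0 : ℝ)..m, (c1 * y + c2 * y ^ 2 + c3 * y ^ 3) =
      c1 * m ^ 2 / 2 + c2 * m ^ 3 / 3 + c3 * m ^ 4 / 4 := by
  rw [intervalIntegral.integral_add, intervalIntegral.integral_add,
    intervalIntegral.integral_const_mul, intervalIntegral.integral_const_mul,
    intervalIntegral.integral_const_mul, integral_id, integral_pow, integral_pow]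
  · norm_num
    ring
  · exact (by fun_prop : Continuous fun y : ℝ => c1 * y).intervalIntegrable _ _
  · exact (by fun_prop : Continuous fun y : ℝ => c2 * y ^ 2).intervalIntegrable _ _
  · exact (by fun_prop : Continuous fun y : ℝ => c1 * y + c2 * y ^ 2).intervalIntegrable _ _
  · exact (by fun_prop : Continuous fun y : ℝ => c3 * y ^ 3).intervalIntegrable _ _

theorem int_quad (c0 c1 c2 m : ℝ) :
    ∫ y in (0 : ℝ)..m, (c0 + c1 * y + c2 * y ^ 2) =
      c0 * m + c1 * m ^ 2 / 2 + c2 * m ^ 3 / 3 := by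
  rw [intervalIntegral.integral_add, intervalIntegral.integral_add,
    intervalIntegral.integral_const_mul, intervalIntegral.integral_const_mul,
    intervalIntegral.integral_const, integral_id, integral_pow]
  · norm_num
    ring
  · exact continuous_const.intervalIntegrable _ _
  · exact (by fun_prop : Continuous fun y : ℝ => c1 * y).intervalIntegrable _ _
  · exact (by fun_prop : Continuous fun y : ℝ => c0 + c1 * y).intervalIntegrable _ _
  · exact (by fun_prop : Continuous fun y : ℝ => c2 * y ^ 2).intervalIntegrable _ _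

/-- inner integral -/
theorem J2 (x1 d m : ℝ) :
    ∫ y in (0 : ℝ)..m, (1 + 8 * e2 x1 (y + d)) =
      m * (1 + 8 * (x1 - x1 ^ 2 + d * (1 - x1) - d ^ 2)) + 4 * (1 - x1 - 2 * d) * m ^ 2
        - 8 / 3 * m ^ 3 := by
  have h := int_quad (1 + 8 * (x1 - x1 ^ 2 + d * (1 - x1) - d ^ 2)) (8 * (1 - x1 - 2 * d)) (-8) m
  have e : (fun y : ℝ => 1 + 8 * e2 x1 (y + d)) = fun y => (1 + 8 * (x1 - x1 ^ 2 + d * (1 - x1)
      - d ^ 2)) + 8 * (1 - x1 - 2 * d) * y + (-8) * y ^ 2 := by
    funext y
    unfold e2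
    ring
  rw [e, h]
  ring

/-- the polynomial of the second integration -/
noncomputable def P2 (c d n y : ℝ) : ℝ := (n - y) * (1 + 8 * ((y + c) - (y + c) ^ 2 + d * (1 - (y + c)) - d ^ 2))
  + 4 * (1 - (y + c) - 2 * d) * (n - y) ^ 2 - 8 / 3 * (n - y) ^ 3

theorem J1 (c d n : ℝ) : ∫ y in (0 : ℝ)..n, P2 c d n y =
    (1 + 8 * ((n + c) - (n + c) ^ 2 + d - d * (n + c) - d ^ 2)) * n ^ 2 / 2
      + (12 * (n + c) - 4) * n ^ 3 / 3 - 5 / 3 * n ^ 4 := by
  have h1 : ∫ y in (0 : ℝ)..n, P2 c d n y = ∫ y in (0 : ℝ)..n, P2 c d n (n - y) := by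
    rw [intervalIntegral.integral_comp_sub_left (fun y => P2 c d n y) n]
    simp
  have e : (fun y : ℝ => P2 c d n (n - y)) = fun y =>
      (1 + 8 * ((n + c) - (n + c) ^ 2 + d - d * (n + c) - d ^ 2)) * y
        + (12 * (n + c) - 4) * y ^ 2 + (-20 / 3) * y ^ 3 := by
    funext y
    unfold P2
    ring
  rw [h1, e, int_cubic]
  ring

/-- the polynomial of the third integration -/
noncomputable def P1 (A B t : ℝ) : ℝ :=
  (1 + 8 * (((1 - t) + t * A) - ((1 - t) + t * A) ^ 2 + t * B - t * B * ((1 - t) + t * A)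
    - (t * B) ^ 2)) * (1 - t) ^ 2 / 2
      + (12 * ((1 - t) + t * A) - 4) * (1 - t) ^ 3 / 3 - 5 / 3 * (1 - t) ^ 4

theorem int_quart (k2 k3 k4 m : ℝ) :
    ∫ y in (0 : ℝ)..m, (k2 * y ^ 2 + k3 * y ^ 3 + k4 * y ^ 4) =
      k2 * m ^ 3 / 3 + k3 * m ^ 4 / 4 + k4 * m ^ 5 / 5 := by
  rw [intervalIntegral.integral_add, intervalIntegral.integral_add,
    intervalIntegral.integral_const_mul, intervalIntegral.integral_const_mul,
    intervalIntegral.integral_const_mul, integral_pow, integral_pow, integral_pow]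
  · norm_num
    ring
  · exact (by fun_prop : Continuous fun y : ℝ => k2 * y ^ 2).intervalIntegrable _ _
  · exact (by fun_prop : Continuous fun y : ℝ => k3 * y ^ 3).intervalIntegrable _ _
  · exact (by fun_prop : Continuous fun y : ℝ => k2 * y ^ 2 + k3 * y ^ 3).intervalIntegrable _ _
  · exact (by fun_prop : Continuous fun y : ℝ => k4 * y ^ 4).intervalIntegrable _ _

theorem J0 (A B : ℝ) : ∫ t in (0 : ℝ)..1, P1 A B t = 1 / 2 + 2 / 15 * e2 A B := by
  have h1 : ∫ t in (0 : ℝ)..1, P1 A B t = ∫ t in (0 : ℝ)..1, P1 A B (1 - t) := by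
    rw [intervalIntegral.integral_comp_sub_left (fun t => P1 A B t) 1]
    simp
  have e : (fun t : ℝ => P1 A B (1 - t)) = fun t =>
      ((1 + 8 * e2 A B) / 2) * t ^ 2
      + (4 * (1 - 3 * A + 2 * A ^ 2 - 2 * B + 2 * A * B + 2 * B ^ 2) + (12 * A - 4) / 3) * t ^ 3
      + (4 * (-(1 - A) ^ 2 + B * (1 - A) - B ^ 2) + 4 * (1 - A) - 5 / 3) * t ^ 4 := by
    funext t
    unfold P1 e2
    ring
  rw [h1, e, int_quart]
  unfold e2
  ring

/-- nonnegativity of the symmetric polynomial on the triangle -/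
theorem e2_nonneg {x y : ℝ} (hx : 0 ≤ x) (hy : 0 ≤ y) (hxy : x + y ≤ 1) : 0 ≤ e2 x y := by
  unfold e2
  have h1 : 0 ≤ (x + y) * (1 - x - y) := mul_nonneg (by linarith) (by linarith)
  have h2 := mul_nonneg hx hy
  linarith

theorem e2_le {x y : ℝ} : e2 x y ≤ 1 / 3 := by
  unfold e2
  nlinarith [sq_nonneg (x - y), sq_nonneg (x + y - 2 / 3)]

/-- the weight -/
theorem weight_ge {e : ℝ} (he : e ≤ 1 / 3) : 16 / 27 * (1 + 8 * e) ≤ 1 / (1 - e) ^ 2 := by
  have h1 : 0 < (1 - e) ^ 2 := by
    have : 0 < 1 - e := by linarith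
    positivity
  rw [le_div_iff₀ h1]
  have h2 : 1 - 16 / 27 * (1 + 8 * e) * (1 - e) ^ 2 = (4 * e - 1) ^ 2 * (11 - 8 * e) / 27 := by
    ring
  have h3 : 0 ≤ (4 * e - 1) ^ 2 * (11 - 8 * e) / 27 := by
    have : 0 ≤ 11 - 8 * e := by linarith
    positivity
  linarith

/-- the four-fold indicator function -/
noncomputable def jf (A B C x y t : ℝ) : ℝ≥0∞ :=
  if 0 < t ∧ t * A < x ∧ t * B < y ∧ t * C < 1 - x - y then ENNReal.ofReal (1 + 8 * e2 x y) else 0

theorem e2_cont : Continuous fun p : ℝ × ℝ => e2 p.1 p.2 := by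
  unfold e2
  fun_prop

theorem jf_meas (A B C : ℝ) : Measurable fun p : ℝ × ℝ × ℝ => jf A B C p.1 p.2.1 p.2.2 := by
  unfold jf
  apply Measurable.ite
  · have m1 : MeasurableSet {p : ℝ × ℝ × ℝ | 0 < p.2.2} :=
      (isOpen_lt continuous_const (by fun_prop)).measurableSet
    have m2 : MeasurableSet {p : ℝ × ℝ × ℝ | p.2.2 * A < p.1} :=
      (isOpen_lt (by fun_prop) (by fun_prop)).measurableSet
    have m3 : MeasurableSet {p : ℝ × ℝ × ℝ | p.2.2 * B < p.2.1} :=
      (isOpen_lt (by fun_prop) (by fun_prop)).measurableSet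
    have m4 : MeasurableSet {p : ℝ × ℝ × ℝ | p.2.2 * C < 1 - p.1 - p.2.1} :=
      (isOpen_lt (by fun_prop) (by fun_prop)).measurableSet
    exact m1.inter (m2.inter (m3.inter m4))
  · have h : Continuous fun p : ℝ × ℝ × ℝ => 1 + 8 * e2 p.1 p.2.1 := by
      unfold e2
      fun_prop
    exact h.measurable.ennreal_ofReal
  · exact measurable_const

/-- integration over the level -/
theorem jf_t {A B C : ℝ} (hA : 0 < A) (hB : 0 < B) (hC : 0 < C) (x y : ℝ) :
    ∫⁻ t, jf A B C x y t =
      ENNReal.ofReal (tent A B C x y) * ENNReal.ofReal (1 + 8 * e2 x y) := by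
  have h1 : ∀ t, jf A B C x y t =
      (Ioo 0 (tent A B C x y)).indicator (fun _ => ENNReal.ofReal (1 + 8 * e2 x y)) t := by
    intro t
    unfold jf tent
    by_cases h : 0 < t ∧ t * A < x ∧ t * B < y ∧ t * C < 1 - x - y
    · rw [if_pos h, indicator_of_mem]
      refine ⟨h.1, ?_⟩
      rw [lt_min_iff, lt_min_iff, lt_div_iff₀ hA, lt_div_iff₀ hB, lt_div_iff₀ hC]
      exact h.2
    · rw [if_neg h, indicator_of_notMem]
      rintro ⟨h2, h3⟩
      rw [lt_min_iff, lt_min_iff, lt_div_iff₀ hA, lt_div_iff₀ hB, lt_div_iff₀ hC] at h3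
      exact h ⟨h2, h3⟩
  simp only [h1]
  rw [lintegral_indicator measurableSet_Ioo, setLIntegral_const, Real.volume_Ioo, sub_zero,
    mul_comm]

/-- **the flat tent integral** (lower bound, apex `(A, B, C)` with sum `1`) -/
theorem flat_ge {A B C : ℝ} (hA : 0 < A) (hB : 0 < B) (hC : 0 < C) (hs : A + B + C = 1) :
    ENNReal.ofReal (1 / 2 + 2 / 15 * e2 A B) ≤ ∫⁻ x, ∫⁻ y,
      ENNReal.ofReal (tent A B C x y) * ENNReal.ofReal (1 + 8 * e2 x y) := by
  have h1 : ∫⁻ x, ∫⁻ y, ENNReal.ofReal (tent A B C x y) * ENNReal.ofReal (1 + 8 * e2 x y) =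
      ∫⁻ x, ∫⁻ y, ∫⁻ t, jf A B C x y t := by
    simp only [jf_t hA hB hC]
  rw [h1, swap3 (jf_meas A B C)]
  -- translation
  have h2 : ∀ t, ∫⁻ x, ∫⁻ y, jf A B C x y t = ∫⁻ x, ∫⁻ y, jf A B C (x + t * A) (y + t * B) t := by
    intro t
    rw [← lintegral_add_right_eq_self (μ := (volume : Measure ℝ))
      (fun x => ∫⁻ y, jf A B C x y t) (t * A)]
    apply lintegral_congr
    intro x
    exact (lintegral_add_right_eq_self (μ := (volume : Measure ℝ))
      (fun y => jf A B C (x + t * A) y t) (t * B)).symm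
  simp only [h2]
  have h3 : ∀ x y t, 0 < t → jf A B C (x + t * A) (y + t * B) t =
      if 0 < x ∧ 0 < y ∧ y < 1 - t - x then
        ENNReal.ofReal (1 + 8 * e2 (x + t * A) (y + t * B)) else 0 := by
    intro x y t ht
    unfold jf
    congr 1
    rw [eq_iff_iff]
    constructor
    · rintro ⟨k1, k2, k3, k4⟩
      refine ⟨by linarith, by linarith, ?_⟩
      have : t * A + t * B + t * C = t := by rw [← mul_add, ← mul_add, hs, mul_one]
      linarith
    · rintro ⟨k1, k2, k3⟩
      have : t * A + t * B + t * C = t := by rw [← mul_add, ← mul_add, hs, mul_one]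
      exact ⟨ht, by linarith, by linarith, by linarith⟩
  -- the inner integral
  have h4 : ∀ t x, 0 < t → t < 1 → 0 < x → x < 1 - t →
      ENNReal.ofReal (P2 (t * A) (t * B) (1 - t) x) =
        ∫⁻ y, jf A B C (x + t * A) (y + t * B) t := by
    intro t x ht ht1 hx hx1
    have hc : Continuous fun y : ℝ => 1 + 8 * e2 (x + t * A) (y + t * B) := by
      unfold e2
      fun_prop
    have h5 := lint_poly hc (m := 1 - t - x) (by linarith) (fun y hy hy1 => by
      have : t * A + t * B + t * C = t := by rw [← mul_add, ← mul_add, hs, mul_one]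
      have k1 : 0 < t * A := mul_pos ht hA
      have k2 : 0 < t * B := mul_pos ht hB
      have k3 : 0 < t * C := mul_pos ht hC
      have := e2_nonneg (x := x + t * A) (y := y + t * B) (by linarith) (by linarith)
        (by linarith)
      linarith)
    rw [J2] at h5
    have e : P2 (t * A) (t * B) (1 - t) x = (1 - t - x) * (1 + 8 * (x + t * A - (x + t * A) ^ 2
        + t * B * (1 - (x + t * A)) - (t * B) ^ 2))
        + 4 * (1 - (x + t * A) - 2 * (t * B)) * (1 - t - x) ^ 2 - 8 / 3 * (1 - t - x) ^ 3 := by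
      unfold P2
      ring
    rw [e, h5]
    apply lintegral_congr
    intro y
    rw [h3 x y t ht]
    simp only [hx, true_and]
  have h6 : ∀ t x, 0 < t → t < 1 → 0 < x → x < 1 - t → 0 ≤ P2 (t * A) (t * B) (1 - t) x := by
    intro t x ht ht1 hx hx1
    have h7 := J2 (x + t * A) (t * B) (1 - t - x)
    have e : P2 (t * A) (t * B) (1 - t) x = ∫ y in (0 : ℝ)..(1 - t - x),
        (1 + 8 * e2 (x + t * A) (y + t * B)) := by
      rw [h7]
      unfold P2
      ring
    rw [e]
    apply intervalIntegral.integral_nonneg (by linarith)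
    intro y hy
    have : t * A + t * B + t * C = t := by rw [← mul_add, ← mul_add, hs, mul_one]
    have k1 : 0 < t * A := mul_pos ht hA
    have k2 : 0 < t * B := mul_pos ht hB
    have k3 : 0 < t * C := mul_pos ht hC
    have := e2_nonneg (x := x + t * A) (y := y + t * B) (by linarith) (by linarith [hy.1])
      (by linarith [hy.2])
    linarith
  -- second integral
  have h8 : ∀ t, 0 < t → t < 1 → ENNReal.ofReal (P1 A B t) ≤
      ∫⁻ x, ∫⁻ y, jf A B C (x + t * A) (y + t * B) t := by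
    intro t ht ht1
    have hc : Continuous fun x : ℝ => P2 (t * A) (t * B) (1 - t) x := by
      unfold P2
      fun_prop
    have h9 := lint_poly hc (m := 1 - t) (by linarith) (fun x hx hx1 => h6 t x ht ht1 hx hx1)
    rw [J1] at h9
    have e : P1 A B t = (1 + 8 * ((1 - t + t * A) - (1 - t + t * A) ^ 2 + t * B
        - t * B * (1 - t + t * A) - (t * B) ^ 2)) * (1 - t) ^ 2 / 2
        + (12 * (1 - t + t * A) - 4) * (1 - t) ^ 3 / 3 - 5 / 3 * (1 - t) ^ 4 := by
      unfold P1
      ring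
    rw [e, h9]
    apply lintegral_mono
    intro x
    by_cases hx : 0 < x ∧ x < 1 - t
    · simp only [if_pos hx]
      exact (h4 t x ht ht1 hx.1 hx.2).le
    · simp only [if_neg hx]
      exact zero_le
  have h10 : ∀ t, 0 < t → t < 1 → 0 ≤ P1 A B t := by
    intro t ht ht1
    have h11 := J1 (t * A) (t * B) (1 - t)
    have e : P1 A B t = ∫ y in (0 : ℝ)..(1 - t), P2 (t * A) (t * B) (1 - t) y := by
      rw [h11]
      unfold P1
      ring
    rw [e, intervalIntegral.integral_of_le (by linarith), integral_Ioc_eq_integral_Ioo]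
    apply setIntegral_nonneg measurableSet_Ioo
    intro x hx
    exact h6 t x ht ht1 hx.1 hx.2
  have hc : Continuous fun t : ℝ => P1 A B t := by
    unfold P1
    fun_prop
  have h12 := lint_poly hc (m := 1) zero_le_one (fun t ht ht1 => h10 t ht ht1)
  rw [J0] at h12
  rw [h12]
  apply lintegral_mono
  intro t
  by_cases ht : 0 < t ∧ t < 1
  · simp only [if_pos ht]
    exact h8 t ht.1 ht.2
  · simp only [if_neg ht]
    exact zero_le

end Helper29.MEI
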