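import Pool.Agent.Helper75.MEI2.Tip

/-!
# Project MEI (M2), w-term: the corner squares for sums of the violations up to `1/10`

`tip_wcB`: in the corner squares `[0, h]²` the loss is at most `2 y`, for every certificate `G`
with the mass deficit at most `dT`; the function is `omT` of the range `Σ S ≤ 1/100` with
constants `C k ≥ 4 h`. `omTB_int`: its integral for `C k = 4 h`.
-/

set_option autoImplicit false

namespace Helper29.MEI

open Set Metric MeasureTheory Helper80.CW Helper82.CW Helper14.CW Helper93.MEI Helper82.M2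
open Helper14.MEI2 Pool.Agent.Helper52.MEI Pool.Agent.Helper73.MEI Pool.Agent.Helper31.SR
open Helper78.MEI Helper60.MEI Helper75.MEI2
open Helper33.MEI (Wi Dl tx M3 mt mt_pos M3_pos Dl_meas)
open scoped RealInnerProductSpace ENNReal

/-- the function of the corner squares is at least `2 y` on them -/
theorem omT_ge {y hh : ℝ} (hy : 0 ≤ y) (hh0 : 0 < hh) {C : Fin 3 → ℝ}
    (hC : ∀ k, 4 * hh ≤ C k) {t : ℝ × ℝ} (ht : t ∈ Dl) {k : Fin 3}
    (htk : ∀ j, j ≠ k → T3 t j ≤ hh) : y * 2 ≤ omT y (C 0) (C 1) (C 2) hh t := by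
  have hC0 : ∀ k, 0 ≤ C k := fun k => by
    have := hC k
    linarith
  obtain ⟨t1, t2, t3⟩ := id ht
  have ht3 : (0 : ℝ) < 1 - t.1 - t.2 := by linarith
  have n0 := tip_nonneg (hC0 0) hh (c0 t)
  have n1 := tip_nonneg (hC0 1) hh (c1 t)
  have n2 := tip_nonneg (hC0 2) hh t
  have key : ∀ (k : Fin 3) (x z : ℝ), 0 < x → 0 < z → x ≤ hh → z ≤ hh →
      (2 : ℝ) ≤ min 2 (C k / (x + z)) := by
    intro k x z hx hz hxh hzh
    refine le_min le_rfl ?_
    rw [le_div_iff₀ (by linarith)]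
    have := hC k
    linarith
  unfold omT
  refine mul_le_mul_of_nonneg_left ?_ hy
  fin_cases k
  · have b1 : t.2 ≤ hh := htk 1 (by decide)
    have b2 : 1 - t.1 - t.2 ≤ hh := htk 2 (by decide)
    have e : tip (C 0) hh (c0 t) = min 2 (C 0 / (1 - t.1 - t.2 + t.2)) :=
      tip_eq (C := C 0) (h := hh) (c0_mem.2 ht) b2 b1
    have := key 0 (1 - t.1 - t.2) t.2 ht3 t2 b2 b1
    rw [← e] at this
    linarith
  · have b1 : t.1 ≤ hh := htk 0 (by decide)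
    have b2 : 1 - t.1 - t.2 ≤ hh := htk 2 (by decide)
    have e : tip (C 1) hh (c1 t) = min 2 (C 1 / (t.1 + (1 - t.1 - t.2))) :=
      tip_eq (C := C 1) (h := hh) (c1_mem.2 ht) b1 b2
    have := key 1 t.1 (1 - t.1 - t.2) t1 ht3 b1 b2
    rw [← e] at this
    linarith
  · have b1 : t.1 ≤ hh := htk 0 (by decide)
    have b2 : t.2 ≤ hh := htk 1 (by decide)
    have e : tip (C 2) hh t = min 2 (C 2 / (t.1 + t.2)) := tip_eq (C := C 2) (h := hh) ht b1 b2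
    have := key 2 t.1 t.2 t1 t2 b1 b2
    rw [← e] at this
    linarith

/-- `m` in a corner square -/
theorem m_corner {t : ℝ × ℝ} (ht : t ∈ Dl) {hh : ℝ} (hh1 : hh ≤ 1 / 100)
    {k : Fin 3} (htk : ∀ j, j ≠ k → T3 t j ≤ hh) : √(mt t) < 1 ∧ 98 / 100 ≤ √(mt t) := by
  obtain ⟨t1, t2, t3⟩ := id ht
  have ht3 : (0 : ℝ) < 1 - t.1 - t.2 := by linarith
  have hm0 : 0 < √(mt t) := Real.sqrt_pos.2 mt_pos
  have hmsq : √(mt t) ^ 2 = mt t := Real.sq_sqrt mt_pos.le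
  have key : ∀ x z : ℝ, 0 < x → 0 < z → x ≤ hh → z ≤ hh →
      mt t = 1 - x - z + x ^ 2 + z ^ 2 + x * z → √(mt t) < 1 ∧ 98 / 100 ≤ √(mt t) := by
    intro x z hx hz hxh hzh e
    obtain ⟨m1, m2, -⟩ := one_sub_m hx hz hxh hzh hh1 hm0.le (hmsq.trans e)
    exact ⟨m1, m2⟩
  fin_cases k
  · exact key (1 - t.1 - t.2) t.2 ht3 t2 (htk 2 (by decide)) (htk 1 (by decide)) (by
      unfold Helper33.MEI.mt
      ring)
  · exact key t.1 (1 - t.1 - t.2) t1 ht3 (htk 0 (by decide)) (htk 2 (by decide)) (by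
      unfold Helper33.MEI.mt
      ring)
  · exact key t.1 t.2 t1 t2 (htk 0 (by decide)) (htk 1 (by decide)) (by
      unfold Helper33.MEI.mt
      ring)

/-- **the corner squares, `Σ S ≤ 1/10`**: the inequality of `WCost` with the function `omT` with
constants `C k ≥ 4 h`, for every `G` -/
theorem tip_wcB {a : Fin 4 → E3} {σ : Measure (E3 × E3)} {K : Set E3} {S : Fin 4 → ℝ}
    {c : Fin 4 → E3} (h : CN K σ a c) (v : Viol K a S)
    (τ : Equiv.Perm (Fin 4)) {A : ℝ} (hA : 0 ≤ A) {X : ℝ}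
    (hSX : S (τ 0) + (S (τ 1) + S (τ 2) + S (τ 3)) ≤ X) (hX1 : X ≤ 1 / 10)
    {hh dT y : ℝ} (hh0 : 0 < hh) (hh1 : hh ≤ 1 / 100) (hd0 : 0 ≤ dT) (hd1 : dT ≤ 1)
    (hy : 0.2823 + A * (dT + 1.134 * X) ≤ y)
    {C : Fin 3 → ℝ} (hC : ∀ k, 4 * hh ≤ C k)
    {t : ℝ × ℝ} (ht : t ∈ Dl) {k : Fin 3} (htk : ∀ j, j ≠ k → T3 t j ≤ hh)
    {q : E3} (hq : q ∈ K) {G D s : ℝ} (hD : D ≤ dT)
    (hX : Yt (fun i => a (τ i)) t q / √(mt t) - ‖a (τ 0) - q‖ ^ 2 ≤ s)
    (hG : G + (1 - D) * ‖a (τ 0) - q‖ ^ 2 ≤ Yt (fun i => a (τ i)) t q) :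
    A * (G / √(mt t)) - omT y (C 0) (C 1) (C 2) hh t ≤
      ff A (Yt (fun i => a (τ i)) t q / √(mt t) - ‖a (τ 0) - q‖ ^ 2)
        (‖a (τ 0) - q‖ ^ 2) := by
  have s0 : 0 ≤ S (τ 0) := v.nn _
  have s1 : 0 ≤ S (τ 1) := v.nn _
  have s2 : 0 ≤ S (τ 2) := v.nn _
  have s3 : 0 ≤ S (τ 3) := v.nn _
  have hX0 : 0 ≤ X := by linarith
  have hm0 : 0 < √(mt t) := Real.sqrt_pos.2 mt_pos
  obtain ⟨m1, m2⟩ := m_corner ht hh1 htk
  have hy0 : 0 ≤ y := by
    have : 0 ≤ A * (dT + 1.134 * X) := mul_nonneg hA (by linarith)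
    linarith
  obtain ⟨t1, t2, t3⟩ := id ht
  have ht3 : (0 : ℝ) < 1 - t.1 - t.2 := by linarith
  have hCX : T3 t 0 * S (τ 1) + T3 t 1 * S (τ 2) + T3 t 2 * S (τ 3) ≤
      S (τ 1) + S (τ 2) + S (τ 3) := by
    have T0 : T3 t 0 ≤ 1 := by
      show t.1 ≤ 1
      linarith
    have T1 : T3 t 1 ≤ 1 := by
      show t.2 ≤ 1
      linarith
    have T2 : T3 t 2 ≤ 1 := by
      show 1 - t.1 - t.2 ≤ 1
      linarith
    have := mul_le_mul_of_nonneg_right T0 s1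
    have := mul_le_mul_of_nonneg_right T1 s2
    have := mul_le_mul_of_nonneg_right T2 s3
    linarith
  have key := tip_loss (G := G) (D := D) (y := y) (W' := 2) h v τ hA (by linarith) ht hq hX hG
    hy0 (by
    have d : 0 < 1 - S (τ 0) := by linarith
    have k1 : 1 - (1 - D) / √(mt t) ≤ dT := by
      have e1 : 1 - dT ≤ (1 - D) / √(mt t) := by
        rw [le_div_iff₀ hm0]
        nlinarith
      linarith
    have k2 : 0.254 / (1 - S (τ 0)) ≤ 0.2823 := by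
      rw [div_le_iff₀ d]
      linarith
    have k3 : (T3 t 0 * S (τ 1) + T3 t 1 * S (τ 2) + T3 t 2 * S (τ 3)) / √(mt t) ≤
        1.0205 * X := by
      rw [div_le_iff₀ hm0]
      nlinarith
    have k4 : A * ((T3 t 0 * S (τ 1) + T3 t 1 * S (τ 2) + T3 t 2 * S (τ 3)) / √(mt t)) /
        (1 - S (τ 0)) ≤ A * (1.134 * X) := by
      rw [div_le_iff₀ d]
      have e1 := mul_le_mul_of_nonneg_left k3 hA
      have e2 : 1.0205 * X ≤ 1.134 * X * (1 - S (τ 0)) := by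
        have : S (τ 0) ≤ 1 / 10 := by linarith
        nlinarith
      have e3 := mul_le_mul_of_nonneg_left e2 hA
      linarith
    have k5 := mul_le_mul_of_nonneg_left k1 hA
    linarith) ((min_le_left _ _).trans (by linarith))
  have hge := omT_ge hy0 hh0 hC ht htk
  linarith

/-- **the integral**, constants `4 h` -/
theorem omTB_int {y h M : ℝ} (hy : 0 ≤ y) (hh : 0 ≤ h) (hh2 : 2 * h < 1) (hM : 0 ≤ M)
    (hMh : 1 ≤ M ^ 2 * (1 - 2 * h) ^ 3) :
    (√2)⁻¹ * ∫ t in Dl, omT y (4 * h) (4 * h) (4 * h) h t * M3 t ≤ 17 * h ^ 2 * M * y := by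
  have k := omT_int (y := y) (C0 := 4 * h) (C1 := 4 * h) (C2 := 4 * h) (h := h) (M := M) hy
    (by linarith) (by linarith) (by linarith) hh hh2 hM hMh
  have e : 2 * h * M * (y * (4 * h + 4 * h + 4 * h)) = 24 * (h ^ 2 * M * y) := by ring
  rw [e] at k
  have p : 0 ≤ h ^ 2 * M * y := by positivity
  have s2 : (√2)⁻¹ ≤ 17 / 24 := by
    rw [inv_le_comm₀ (by positivity) (by norm_num)]
    refine Real.le_sqrt_of_sq_le ?_
    norm_num
  have h0 : (0 : ℝ) ≤ (√2)⁻¹ := by positivity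
  calc (√2)⁻¹ * ∫ t in Dl, omT y (4 * h) (4 * h) (4 * h) h t * M3 t ≤
        (√2)⁻¹ * (24 * (h ^ 2 * M * y)) := mul_le_mul_of_nonneg_left k h0
    _ ≤ 17 / 24 * (24 * (h ^ 2 * M * y)) := mul_le_mul_of_nonneg_right s2 (by linarith)
    _ = 17 * h ^ 2 * M * y := by ring

end Helper29.MEI
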